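import Mathlib
import Pool.Graph.R_seed8.R405.HN

/-!
Dual certificates for supermodular functions on the lattice of subspaces, invariant under a Galois
group: the destabilizing subspaces are rational.
-/

set_option autoImplicit false
set_option linter.unusedSectionVars false

open Finset Module

namespace Pool.Agent.H13.WS

open Pool.Agent.R405 (exv exs exv_add exv_smul exv_zero exv_sum exs_mono exs_sup exs_bot finrank_exs
  exs_inf flat)

variable {k K : Type} [Field k] [Field K] [Algebra k K] {n : ℕ}

/-- conjugate of a vector -/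
def cj (σ : K ≃ₐ[k] K) (w : Fin n → K) : Fin n → K := fun j => σ (w j)

theorem cj_add (σ : K ≃ₐ[k] K) (w w' : Fin n → K) : cj σ (w + w') = cj σ w + cj σ w' := by
  funext j; simp [cj]

theorem cj_smul (σ : K ≃ₐ[k] K) (c : K) (w : Fin n → K) : cj σ (c • w) = σ c • cj σ w := by
  funext j; simp [cj]

theorem cj_zero (σ : K ≃ₐ[k] K) : cj σ (0 : Fin n → K) = 0 := by
  funext j; simp [cj]

theorem cj_symm (σ : K ≃ₐ[k] K) (w : Fin n → K) : cj σ (cj σ.symm w) = w := by
  funext j; simp [cj]

theorem cj_symm' (σ : K ≃ₐ[k] K) (w : Fin n → K) : cj σ.symm (cj σ w) = w := by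
  funext j; simp [cj]

/-- the preimage of a subspace under conjugation -/
def act (σ : K ≃ₐ[k] K) (W : Submodule K (Fin n → K)) : Submodule K (Fin n → K) where
  carrier := {w | cj σ w ∈ W}
  add_mem' := by
    intro a b ha hb
    show cj σ (a + b) ∈ W
    rw [cj_add]
    exact W.add_mem ha hb
  zero_mem' := by
    show cj σ 0 ∈ W
    rw [cj_zero]
    exact W.zero_mem
  smul_mem' := by
    intro c a ha
    show cj σ (c • a) ∈ W
    rw [cj_smul]
    exact W.smul_mem _ ha

theorem mem_act {σ : K ≃ₐ[k] K} {W : Submodule K (Fin n → K)} {w : Fin n → K} :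
    w ∈ act σ W ↔ cj σ w ∈ W := Iff.rfl

theorem act_act_symm (σ : K ≃ₐ[k] K) (W : Submodule K (Fin n → K)) :
    act σ (act σ.symm W) = W := by
  ext w
  rw [mem_act, mem_act, cj_symm']

theorem act_symm_act (σ : K ≃ₐ[k] K) (W : Submodule K (Fin n → K)) :
    act σ.symm (act σ W) = W := by
  ext w
  rw [mem_act, mem_act, cj_symm]

theorem act_mono (σ : K ≃ₐ[k] K) {W W' : Submodule K (Fin n → K)} (h : W ≤ W') :
    act σ W ≤ act σ W' := fun _ hw => h hw

theorem act_inf (σ : K ≃ₐ[k] K) (W W' : Submodule K (Fin n → K)) :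
    act σ (W ⊓ W') = act σ W ⊓ act σ W' := rfl

theorem act_top (σ : K ≃ₐ[k] K) : act σ (⊤ : Submodule K (Fin n → K)) = ⊤ := by
  ext w; simp [mem_act]

theorem act_exs (σ : K ≃ₐ[k] K) (U : Submodule k (Fin n → k)) : act σ (exs K U) = exs K U := by
  have key : ∀ τ : K ≃ₐ[k] K, exs K U ≤ act τ (exs K U) := by
    intro τ
    refine Submodule.span_le.2 ?_
    rintro _ ⟨u, hu, rfl⟩
    show cj τ (exv K u) ∈ exs K U
    have : cj τ (exv K u) = exv K u := by
      funext j
      simp [cj, exv]
    rw [this]
    exact Submodule.subset_span ⟨u, hu, rfl⟩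
  apply le_antisymm _ (key σ)
  have := act_mono σ (key σ.symm)
  rwa [act_act_symm] at this

variable [FiniteDimensional k K]

theorem finrank_act (σ : K ≃ₐ[k] K) (W : Submodule K (Fin n → K)) :
    finrank K (act σ W) = finrank K W := by
  have h1 : finrank k (act σ W) = finrank k W := by
    let e : act σ W ≃ₗ[k] W :=
      { toFun := fun w => ⟨cj σ w.1, w.2⟩
        invFun := fun w => ⟨cj σ.symm w.1, by
          show cj σ (cj σ.symm w.1) ∈ W
          rw [cj_symm]
          exact w.2⟩
        left_inv := fun w => Subtype.ext (cj_symm' σ w.1)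
        right_inv := fun w => Subtype.ext (cj_symm σ w.1)
        map_add' := fun a b => Subtype.ext (cj_add σ a.1 b.1)
        map_smul' := fun c a => Subtype.ext (by
          funext j
          show σ (c • a.1 j) = c • σ (a.1 j)
          rw [map_smul]) }
    exact e.finrank_eq
  have h2 := Module.finrank_mul_finrank k K (act σ W)
  have h3 := Module.finrank_mul_finrank k K W
  have h4 : 0 < finrank k K := Module.finrank_pos
  rw [h1, ← h3] at h2
  exact Nat.eq_of_mul_eq_mul_left h4 h2

/-- Galois descent for subspaces -/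
theorem descend_sub [IsGalois k K] (W : Submodule K (Fin n → K))
    (hW : ∀ σ : K ≃ₐ[k] K, W ≤ act σ W) : ∃ U : Submodule k (Fin n → k), exs K U = W := by
  classical
  let U : Submodule k (Fin n → k) :=
    { carrier := {u | exv K u ∈ W}
      add_mem' := by
        intro a b ha hb
        show exv K (a + b) ∈ W
        rw [exv_add]
        exact W.add_mem ha hb
      zero_mem' := by
        show exv K 0 ∈ W
        rw [exv_zero]
        exact W.zero_mem
      smul_mem' := by
        intro c a ha
        show exv K (c • a) ∈ W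
        rw [exv_smul]
        exact W.smul_mem _ ha }
  refine ⟨U, le_antisymm ?_ ?_⟩
  · refine Submodule.span_le.2 ?_
    rintro _ ⟨u, hu, rfl⟩
    exact hu
  · intro w hw
    let b := Module.finBasis k K
    let b' := (Algebra.traceForm k K).dualBasis (traceForm_nondegenerate k K) b
    have hrep : ∀ z : K, z = ∑ i, algebraMap k K (Algebra.trace k K (z * b i)) * b' i := by
      intro z
      conv_lhs => rw [← b'.sum_repr z]
      refine Finset.sum_congr rfl fun i _ => ?_
      rw [LinearMap.BilinForm.dualBasis_repr_apply, Algebra.traceForm_apply, Algebra.smul_def]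
    have hw' : w = ∑ i, b' i • exv K (fun j => Algebra.trace k K (w j * b i)) := by
      funext j
      rw [Finset.sum_apply]
      conv_lhs => rw [hrep (w j)]
      refine Finset.sum_congr rfl fun i _ => ?_
      simp only [Pi.smul_apply, exv, smul_eq_mul]
      ring
    rw [hw']
    refine Submodule.sum_mem _ fun i _ => Submodule.smul_mem _ _ (Submodule.subset_span ⟨_, ?_, rfl⟩)
    show exv K (fun j => Algebra.trace k K (w j * b i)) ∈ W
    have h1 : exv K (fun j => Algebra.trace k K (w j * b i)) =
        ∑ σ : K ≃ₐ[k] K, cj σ (b i • w) := by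
      funext j
      rw [Finset.sum_apply]
      simp only [exv, cj, Pi.smul_apply, smul_eq_mul]
      rw [trace_eq_sum_automorphisms]
      exact Finset.sum_congr rfl fun σ _ => by rw [mul_comm]
    rw [h1]
    refine Submodule.sum_mem _ fun σ _ => ?_
    have h2 := hW σ (W.smul_mem (b i) hw)
    exact h2

/-- a supermodular function invariant under the Galois group has a dual certificate consisting of
rational subspaces -/
theorem exists_cert [IsGalois k K] (d : ℕ) : ∀ (U : Submodule k (Fin n → k)), finrank k U ≤ d →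
    ∀ Ψ : Submodule K (Fin n → K) → ℝ, (Set.range Ψ).Finite →
    (∀ W W' : Submodule K (Fin n → K), Ψ W + Ψ W' ≤ Ψ (W ⊔ W') + Ψ (W ⊓ W')) → Ψ ⊥ = 0 →
    (∀ (σ : K ≃ₐ[k] K) (W : Submodule K (Fin n → K)), Ψ (act σ W) = Ψ W) →
    (∀ W ≤ exs K U, Ψ W ≤ Ψ (exs K U)) →
    ∃ (m : ℕ) (V : Fin m → Submodule k (Fin n → k)) (y : Fin m → ℝ), (∀ i, 0 ≤ y i) ∧
      (∀ W ≤ exs K U, Ψ W ≤ ∑ i, y i * finrank K (W ⊓ exs K (V i) : Submodule K (Fin n → K))) ∧
      ∑ i, y i * finrank k (V i) ≤ Ψ (exs K U) := by
  classical
  induction d with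
  | zero =>
    intro U hU Ψ hfin hsup hbot hinv hmax
    have hU0 : U = ⊥ := Submodule.finrank_eq_zero.1 (by omega)
    subst hU0
    refine ⟨0, fun i => i.elim0, fun i => i.elim0, fun i => i.elim0, fun W hW => ?_, ?_⟩
    · rw [exs_bot, le_bot_iff] at hW
      rw [hW, hbot]
      simp
    · rw [exs_bot, hbot]
      simp
  | succ d ih =>
    intro U hU Ψ hfin hsup hbot hinv hmax
    by_cases hU0 : U = ⊥
    · exact ih U (by rw [hU0, finrank_bot]; omega) Ψ hfin hsup hbot hinv hmax
    set E : Submodule K (Fin n → K) := exs K U with hE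
    have hEd : finrank K E = finrank k U := finrank_exs U
    have hE0 : E ≠ ⊥ := by
      intro h
      rw [h, finrank_bot] at hEd
      exact hU0 (Submodule.finrank_eq_zero.1 hEd.symm)
    -- the slopes
    set sl : Submodule K (Fin n → K) → ℝ := fun X =>
      (Ψ E - Ψ X) / ((finrank K E : ℝ) - finrank K X) with hsl
    have hslfin : (sl '' {X | X < E}).Finite := by
      have h1 : (Set.range fun X : Submodule K (Fin n → K) => (Ψ X, finrank K X)).Finite := by
        refine (hfin.prod (Set.finite_Iic n)).subset ?_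
        rintro _ ⟨X, rfl⟩
        refine ⟨⟨X, rfl⟩, ?_⟩
        have := Submodule.finrank_le X
        rw [finrank_fin_fun] at this
        exact this
      refine (h1.image fun p : ℝ × ℕ => (Ψ E - p.1) / ((finrank K E : ℝ) - p.2)).subset ?_
      rintro _ ⟨X, -, rfl⟩
      exact ⟨_, ⟨X, rfl⟩, rfl⟩
    obtain ⟨_, ⟨Y, hY, rfl⟩, hYmin⟩ := Set.exists_min_image (sl '' {X | X < E}) id hslfin
      ⟨_, ⟨⊥, bot_lt_iff_ne_bot.2 hE0, rfl⟩⟩
    set θ : ℝ := sl Y with hθ
    have hlt : ∀ X : Submodule K (Fin n → K), X < E → (0 : ℝ) < (finrank K E : ℝ) - finrank K X := by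
      intro X hX
      have := Submodule.finrank_lt_finrank_of_lt hX
      rw [sub_pos]
      exact_mod_cast this
    have hθ0 : 0 ≤ θ := div_nonneg (sub_nonneg.2 (hmax Y hY.le)) (hlt Y hY).le
    set M : ℝ := Ψ E - θ * finrank K E with hM
    have hle : ∀ X ≤ E, Ψ X - θ * finrank K X ≤ M := by
      intro X hX
      rcases hX.lt_or_eq with h | h
      · have h1 := hYmin _ ⟨X, h, rfl⟩
        simp only [id] at h1
        have h2 : θ ≤ (Ψ E - Ψ X) / ((finrank K E : ℝ) - finrank K X) := h1
        rw [le_div_iff₀ (hlt X h)] at h2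
        rw [hM]
        nlinarith
      · rw [h]
    -- the subspaces attaining the slope
    set P : ℕ → Prop := fun m => ∃ X, X < E ∧ Ψ X - θ * finrank K X = M ∧ finrank K X = m with hP
    have hPex : ∃ m, P m := by
      refine ⟨finrank K Y, Y, hY, ?_, rfl⟩
      have h2 : θ = (Ψ E - Ψ Y) / ((finrank K E : ℝ) - finrank K Y) := rfl
      rw [eq_div_iff (hlt Y hY).ne'] at h2
      rw [hM]
      nlinarith
    obtain ⟨X, hXE, hXM, hXf⟩ := Nat.find_spec hPex
    have hXmin : ∀ X' : Submodule K (Fin n → K), X' < E → Ψ X' - θ * finrank K X' = M →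
        finrank K X ≤ finrank K X' := by
      intro X' h1 h2
      rw [hXf]
      exact Nat.find_min' hPex ⟨X', h1, h2, rfl⟩
    have hmod : ∀ A B : Submodule K (Fin n → K), (finrank K (A ⊔ B : Submodule K (Fin n → K)) : ℝ) +
        finrank K (A ⊓ B : Submodule K (Fin n → K)) = finrank K A + finrank K B := by
      intro A B
      exact_mod_cast Submodule.finrank_sup_add_finrank_inf_eq A B
    have hXact : ∀ σ : K ≃ₐ[k] K, X ≤ act σ X := by
      intro σ
      set X' := act σ X with hX'
      have hX'E : X' ≤ E := by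
        have := act_mono σ hXE.le
        rwa [hE, act_exs] at this
      have hX'M : Ψ X' - θ * finrank K X' = M := by
        rw [hX', hinv, finrank_act]
        exact hXM
      have h1 := hsup X X'
      have h2 := hle (X ⊔ X') (sup_le hXE.le hX'E)
      have h3 := hle (X ⊓ X') (inf_le_left.trans hXE.le)
      have h4 := hmod X X'
      have h5 : Ψ (X ⊓ X') - θ * finrank K (X ⊓ X' : Submodule K (Fin n → K)) = M := by
        nlinarith
      have h6 := hXmin _ (lt_of_le_of_lt inf_le_left hXE) h5
      have h7 : X ⊓ X' = X := Submodule.eq_of_le_of_finrank_le inf_le_left h6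
      exact inf_eq_left.1 h7
    obtain ⟨U1, hU1⟩ := descend_sub X hXact
    have hU1d : finrank k U1 ≤ d := by
      have h1 := Submodule.finrank_lt_finrank_of_lt hXE
      rw [hEd, ← hU1, finrank_exs] at h1
      omega
    -- the tilted function
    set Ψ' : Submodule K (Fin n → K) → ℝ := fun W => Ψ W - θ * finrank K W with hΨ'
    obtain ⟨m, V, y, hy, hVy, hsum⟩ := ih U1 hU1d Ψ' (by
        have h1 : (Set.range fun X : Submodule K (Fin n → K) => (Ψ X, finrank K X)).Finite := by
          refine (hfin.prod (Set.finite_Iic n)).subset ?_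
          rintro _ ⟨X, rfl⟩
          refine ⟨⟨X, rfl⟩, ?_⟩
          have := Submodule.finrank_le X
          rw [finrank_fin_fun] at this
          exact this
        refine (h1.image fun p : ℝ × ℕ => p.1 - θ * p.2).subset ?_
        rintro _ ⟨X, rfl⟩
        exact ⟨_, ⟨X, rfl⟩, rfl⟩)
      (fun W W' => by
        have h1 := hsup W W'
        have h2 := hmod W W'
        simp only [hΨ']
        nlinarith)
      (by simp [hΨ', hbot])
      (fun σ W => by simp only [hΨ', hinv, finrank_act])
      (fun W hW => by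
        rw [hU1] at hW ⊢
        simp only [hΨ']
        rw [hXM]
        exact hle W (hW.trans hXE.le))
    refine ⟨m + 1, Fin.cons U V, Fin.cons θ y, fun i => ?_, fun W hW => ?_, ?_⟩
    · refine Fin.cases ?_ (fun j => ?_) i
      · exact hθ0
      · exact hy j
    · rw [Fin.sum_univ_succ]
      show Ψ W ≤ θ * finrank K (W ⊓ exs K U : Submodule K (Fin n → K)) +
        ∑ i, y i * finrank K (W ⊓ exs K (V i) : Submodule K (Fin n → K))
      have h1 := hsup W X
      have h2 := hle (W ⊔ X) (sup_le hW hXE.le)
      have h4 := hmod W X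
      have h5 := hVy (W ⊓ X) (by rw [hU1]; exact inf_le_right)
      have h6 : ∑ i, y i * finrank K (W ⊓ X ⊓ exs K (V i) : Submodule K (Fin n → K)) ≤
          ∑ i, y i * finrank K (W ⊓ exs K (V i) : Submodule K (Fin n → K)) := by
        refine Finset.sum_le_sum fun i _ => mul_le_mul_of_nonneg_left ?_ (hy i)
        exact_mod_cast Submodule.finrank_mono (inf_le_inf_right _ inf_le_left)
      have h7 : W ⊓ exs K U = W := inf_eq_left.2 hW
      rw [h7]
      simp only [hΨ'] at h5
      nlinarith
    · rw [Fin.sum_univ_succ]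
      show θ * finrank k U + ∑ i, y i * finrank k (V i) ≤ Ψ E
      rw [hU1] at hsum
      simp only [hΨ'] at hsum
      rw [hXM] at hsum
      have h1 : (finrank k U : ℝ) = finrank K E := by rw [hEd]
      rw [h1]
      linarith

end Pool.Agent.H13.WS
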