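import Mathlib
import Pool.Agent.H13.WS.Cert

/-!
The dual certificate for the number of vectors of a Galois stable family in a subspace.
-/

set_option autoImplicit false
set_option linter.unusedSectionVars false

open Finset Module

namespace Pool.Agent.H13.WS

open Pool.Agent.R405 (exv exs exv_add exv_smul exv_zero exv_sum exs_mono exs_sup exs_bot finrank_exs
  exs_inf flat)

variable {k K : Type} [Field k] [Field K] [Algebra k K] {n : ℕ}
variable {ι : Type} [Fintype ι] [DecidableEq ι] (L : ι → Fin n → K)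

open Classical in
/-- the number of vectors of the family in a subspace -/
noncomputable def nn (W : Submodule K (Fin n → K)) : ℕ := (univ.filter fun i => L i ∈ W).card

theorem flat_le {A : Finset ι} {W : Submodule K (Fin n → K)} :
    flat L A ≤ W ↔ ∀ i ∈ A, L i ∈ W := by
  unfold flat
  rw [Submodule.span_le]
  constructor
  · intro h i hi
    exact h ⟨i, Finset.mem_coe.2 hi, rfl⟩
  · rintro h _ ⟨i, hi, rfl⟩
    exact h i (Finset.mem_coe.1 hi)

theorem flat_union (A B : Finset ι) : flat L (A ∪ B) = flat L A ⊔ flat L B := by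
  unfold flat
  rw [Finset.coe_union, Set.image_union, Submodule.span_union]

theorem flat_inter (A B : Finset ι) : flat L (A ∩ B) ≤ flat L A ⊓ flat L B := by
  refine le_inf ?_ ?_ <;> rw [flat_le] <;> intro i hi
  · exact Submodule.subset_span ⟨i, Finset.mem_coe.2 (Finset.mem_inter.1 hi).1, rfl⟩
  · exact Submodule.subset_span ⟨i, Finset.mem_coe.2 (Finset.mem_inter.1 hi).2, rfl⟩

theorem finrank_flat_le (A : Finset ι) : finrank K (flat L A) ≤ A.card := by
  classical
  have h := finrank_span_finset_le_card (R := K) (A.image L)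
  rw [Finset.coe_image] at h
  exact h.trans Finset.card_image_le

open Classical in
/-- the largest excess of the number of vectors over the dimension of their span, in a subspace -/
noncomputable def ex (W : Submodule K (Fin n → K)) : ℕ :=
  (univ.filter fun A : Finset ι => flat L A ≤ W).sup fun A => A.card - finrank K (flat L A)

theorem le_ex {A : Finset ι} {W : Submodule K (Fin n → K)} (h : flat L A ≤ W) :
    A.card - finrank K (flat L A) ≤ ex L W := by
  classical
  unfold ex
  exact Finset.le_sup (f := fun A => A.card - finrank K (flat L A))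
    (Finset.mem_filter.2 ⟨Finset.mem_univ _, h⟩)

theorem exists_ex (W : Submodule K (Fin n → K)) :
    ∃ A : Finset ι, flat L A ≤ W ∧ ex L W = A.card - finrank K (flat L A) := by
  classical
  have hne : (univ.filter fun A : Finset ι => flat L A ≤ W).Nonempty :=
    ⟨∅, Finset.mem_filter.2 ⟨Finset.mem_univ _, by rw [flat_le]; simp⟩⟩
  obtain ⟨A, hA, h⟩ := Finset.exists_mem_eq_sup _ hne fun A => A.card - finrank K (flat L A)
  exact ⟨A, (Finset.mem_filter.1 hA).2, h⟩

theorem nn_le_ex (W : Submodule K (Fin n → K)) : nn L W ≤ finrank K W + ex L W := by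
  classical
  have h1 : flat L (univ.filter fun i => L i ∈ W) ≤ W := by
    rw [flat_le]
    intro i hi
    exact (Finset.mem_filter.1 hi).2
  have h2 := le_ex L h1
  have h3 := Submodule.finrank_mono h1
  unfold nn
  omega

theorem card_le_nn (A : Finset ι) : A.card ≤ nn L (flat L A) := by
  classical
  unfold nn
  refine Finset.card_le_card fun i hi => Finset.mem_filter.2 ⟨Finset.mem_univ _, ?_⟩
  exact Submodule.subset_span ⟨i, Finset.mem_coe.2 hi, rfl⟩

theorem ex_super (W W' : Submodule K (Fin n → K)) : ex L W + ex L W' ≤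
    ex L (W ⊔ W') + ex L (W ⊓ W') := by
  classical
  obtain ⟨A, hA, hA'⟩ := exists_ex L W
  obtain ⟨B, hB, hB'⟩ := exists_ex L W'
  have h1 : flat L (A ∪ B) ≤ W ⊔ W' := by rw [flat_union]; exact sup_le_sup hA hB
  have h2 : flat L (A ∩ B) ≤ W ⊓ W' := (flat_inter L A B).trans (inf_le_inf hA hB)
  have h3 := le_ex L h1
  have h4 := le_ex L h2
  have h5 := Finset.card_union_add_card_inter A B
  have h6 := Submodule.finrank_sup_add_finrank_inf_eq (flat L A) (flat L B)
  rw [← flat_union] at h6
  have h7 := Submodule.finrank_mono (flat_inter L A B)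
  have h8 := finrank_flat_le L A
  have h9 := finrank_flat_le L B
  have h10 := finrank_flat_le L (A ∪ B)
  have h11 := finrank_flat_le L (A ∩ B)
  omega

theorem ex_le {R : ℕ} (hR : ∀ W : Submodule K (Fin n → K), W ≠ ⊤ → nn L W ≤ R + finrank K W)
    {W : Submodule K (Fin n → K)} (hW : W ≠ ⊤) : ex L W ≤ R := by
  obtain ⟨A, hA, hA'⟩ := exists_ex L W
  have h1 : flat L A ≠ ⊤ := fun h => hW (top_le_iff.1 (h ▸ hA))
  have h2 := hR _ h1
  have h3 := card_le_nn L A
  omega

theorem ex_bot (hL0 : ∀ i, L i ≠ 0) : ex L (⊥ : Submodule K (Fin n → K)) = 0 := by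
  obtain ⟨A, hA, hA'⟩ := exists_ex L ⊥
  have h1 : A = ∅ := by
    rw [flat_le] at hA
    rw [Finset.eq_empty_iff_forall_notMem]
    intro i hi
    exact hL0 i ((Submodule.mem_bot K).1 (hA i hi))
  rw [hA', h1]
  simp

variable [FiniteDimensional k K]

theorem ex_act_le (hgal : ∀ σ : K ≃ₐ[k] K, ∃ π : Equiv.Perm ι, ∀ i, ∃ c : K, c ≠ 0 ∧
      L (π i) = c • cj σ (L i)) (σ : K ≃ₐ[k] K) (W : Submodule K (Fin n → K)) :
    ex L (act σ W) ≤ ex L W := by
  classical
  obtain ⟨A, hA, hA'⟩ := exists_ex L (act σ W)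
  obtain ⟨π, hπ⟩ := hgal σ
  have hmem : ∀ (V : Submodule K (Fin n → K)) (i : ι), L (π i) ∈ V ↔ L i ∈ act σ V := by
    intro V i
    obtain ⟨c, hc, h⟩ := hπ i
    rw [mem_act, h]
    constructor
    · intro h1
      have h2 := V.smul_mem c⁻¹ h1
      rwa [smul_smul, inv_mul_cancel₀ hc, one_smul] at h2
    · intro h1
      exact V.smul_mem c h1
  set B : Finset ι := A.image π with hB
  have hBc : B.card = A.card := Finset.card_image_of_injective _ π.injective
  have hBW : ∀ V : Submodule K (Fin n → K), flat L B ≤ V ↔ flat L A ≤ act σ V := by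
    intro V
    rw [flat_le, flat_le]
    constructor
    · intro h i hi
      exact (hmem V i).1 (h _ (Finset.mem_image_of_mem _ hi))
    · intro h j hj
      obtain ⟨i, hi, rfl⟩ := Finset.mem_image.1 hj
      exact (hmem V i).2 (h i hi)
  have h1 : flat L A = act σ (flat L B) := by
    apply le_antisymm ((hBW _).1 le_rfl)
    have h2 : flat L B ≤ act σ.symm (flat L A) := by
      rw [hBW, act_act_symm]
    have h3 := act_mono σ h2
    rwa [act_act_symm] at h3
  have h2 : finrank K (flat L A) = finrank K (flat L B) := by rw [h1, finrank_act]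
  have h3 := le_ex L ((hBW W).2 hA)
  rw [hBc, ← h2] at h3
  omega

theorem ex_act (hgal : ∀ σ : K ≃ₐ[k] K, ∃ π : Equiv.Perm ι, ∀ i, ∃ c : K, c ≠ 0 ∧
      L (π i) = c • cj σ (L i)) (σ : K ≃ₐ[k] K) (W : Submodule K (Fin n → K)) :
    ex L (act σ W) = ex L W := by
  apply le_antisymm (ex_act_le L hgal σ W)
  have := ex_act_le L hgal σ.symm (act σ W)
  rwa [act_symm_act] at this

theorem exs_top' : exs K (⊤ : Submodule k (Fin n → k)) = ⊤ := by
  refine Submodule.eq_top_of_finrank_eq ?_
  rw [finrank_exs, finrank_top, finrank_fin_fun, finrank_fin_fun]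

/-- the certificate for the number of vectors in a proper subspace -/
theorem cert_count [IsGalois k K] (hn : 1 ≤ n) (hL0 : ∀ i, L i ≠ 0)
    (hgal : ∀ σ : K ≃ₐ[k] K, ∃ π : Equiv.Perm ι, ∀ i, ∃ c : K, c ≠ 0 ∧
      L (π i) = c • cj σ (L i)) (R : ℕ)
    (hR : ∀ W : Submodule K (Fin n → K), W ≠ ⊤ → nn L W ≤ R + finrank K W) :
    ∃ (m : ℕ) (V : Fin m → Submodule k (Fin n → k)) (y : Fin m → ℝ), (∀ i, 0 ≤ y i) ∧
      (∀ W : Submodule K (Fin n → K), W ≠ ⊤ → (nn L W : ℝ) ≤
        ∑ i, y i * finrank K (W ⊓ exs K (V i) : Submodule K (Fin n → K))) ∧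
      ∑ i, y i * finrank k (V i) ≤ n + 2 * R := by
  classical
  have hbt : (⊥ : Submodule K (Fin n → K)) ≠ ⊤ := by
    intro h
    have h1 : finrank K (⊤ : Submodule K (Fin n → K)) = n := by rw [finrank_top, finrank_fin_fun]
    rw [← h, finrank_bot] at h1
    omega
  set Ψ : Submodule K (Fin n → K) → ℝ := fun W => if W = ⊤ then 2 * R else ex L W with hΨ
  have hΨt : Ψ ⊤ = 2 * R := by simp [hΨ]
  have hΨp : ∀ W, W ≠ ⊤ → Ψ W = ex L W := fun W hW => by simp [hΨ, hW]
  have hle : ∀ W, W ≠ ⊤ → (ex L W : ℝ) ≤ R := fun W hW => by exact_mod_cast ex_le L hR hW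
  have hR0 : (0 : ℝ) ≤ R := Nat.cast_nonneg _
  have hΨ0 : ∀ W, 0 ≤ Ψ W := by
    intro W
    by_cases h : W = ⊤
    · rw [h, hΨt]; linarith
    · rw [hΨp W h]; positivity
  obtain ⟨m, V, y, hy, hVy, hsum⟩ := exists_cert (k := k) (K := K) (n := n) n ⊤
    (by rw [finrank_top, finrank_fin_fun]) Ψ
    (by
      refine ((Set.finite_Iic (R : ℕ)).image (fun m : ℕ => (m : ℝ)) |>.insert (2 * R : ℝ)).subset ?_
      rintro _ ⟨W, rfl⟩
      by_cases h : W = ⊤
      · left; rw [h, hΨt]
      · right
        exact ⟨ex L W, ex_le L hR h, (hΨp W h).symm⟩)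
    (fun W W' => by
      by_cases h : W = ⊤
      · subst h
        simp
      by_cases h' : W' = ⊤
      · subst h'
        simp [add_comm]
      rw [hΨp W h, hΨp W' h']
      by_cases hs : W ⊔ W' = ⊤
      · rw [hs, hΨt]
        have h1 := hle W h
        have h2 := hle W' h'
        have h3 := hΨ0 (W ⊓ W')
        linarith
      · rw [hΨp _ hs, hΨp (W ⊓ W') (fun h0 => h (top_le_iff.1 (h0 ▸ inf_le_left)))]
        exact_mod_cast ex_super L W W')
    (by rw [hΨp _ hbt, ex_bot L hL0, Nat.cast_zero])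
    (fun σ W => by
      by_cases h : W = ⊤
      · rw [h, act_top]
      · have h1 : act σ W ≠ ⊤ := by
          intro h0
          apply h
          rw [← act_act_symm σ.symm W]
          have : act σ.symm (act σ.symm.symm W) = act σ.symm (act σ W) := rfl
          rw [this, h0, act_top]
        rw [hΨp _ h1, hΨp _ h, ex_act L hgal])
    (fun W _ => by
      rw [exs_top', hΨt]
      by_cases h : W = ⊤
      · rw [h, hΨt]
      · rw [hΨp W h]
        have := hle W h
        linarith)
  rw [exs_top', hΨt] at hsum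
  refine ⟨m + 1, Fin.cons ⊤ V, Fin.cons 1 y, fun i => ?_, fun W hW => ?_, ?_⟩
  · refine Fin.cases ?_ (fun j => ?_) i
    · exact zero_le_one
    · exact hy j
  · rw [Fin.sum_univ_succ]
    show (nn L W : ℝ) ≤ 1 * finrank K (W ⊓ exs K (⊤ : Submodule k (Fin n → k)) :
        Submodule K (Fin n → K)) +
      ∑ i, y i * finrank K (W ⊓ exs K (V i) : Submodule K (Fin n → K))
    rw [exs_top', inf_top_eq, one_mul]
    have h1 := hVy W (by rw [exs_top']; exact le_top)
    rw [hΨp W hW] at h1
    have h2 : (nn L W : ℝ) ≤ finrank K W + ex L W := by exact_mod_cast nn_le_ex L W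
    linarith
  · rw [Fin.sum_univ_succ]
    show 1 * (finrank k (⊤ : Submodule k (Fin n → k)) : ℝ) + ∑ i, y i * finrank k (V i) ≤ n + 2 * R
    rw [finrank_top, finrank_fin_fun, one_mul]
    linarith

end Pool.Agent.H13.WS
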