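import Mathlib
import Pool.Agent.H13.WS.Count
import Pool.Graph.R_seed8.R405.SchV
import Pool.Graph.R_pool_sql_team_seeded_3dad9d7b.NH28.Bas

/-!
The local estimates.
-/

set_option autoImplicit false
set_option linter.unusedSectionVars false

open Finset Module

namespace Pool.Agent.H13.WS

open NumberField IsDedekindDomain Height
open Pool.Agent.R405 (exv exs exs_bot finrank_exs exs_inf flat dot pre hl hl_le flat_mono pre_mono
  flat_pre_top dm abel Good finite_HN IsHN dg deg Srt hl_anti treeV deg_top exists_HN exv_ne dot_exv)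
open Pool.Agent.W180.OP (Pl av wt nrm le_nrm nrm_pos nrm_nonneg exists_nrm wt_nonneg)

section

variable {K : Type} [Field K] {n : ℕ} {κ : Type} [Fintype κ] [DecidableEq κ]

theorem sorted_basis (M : κ → Fin n → K) (hM : Submodule.span K (Set.range M) = ⊤) (g : κ → ℝ) :
    ∃ β : Fin n → κ, LinearIndependent K (fun a => M (β a)) ∧
      (∀ a b : Fin n, a ≤ b → g (β a) ≤ g (β b)) ∧
      ∀ l, M l ≠ 0 → ∃ s : Fin n, M l ∈ flat M (pre β s.val) ∧ g (β s) ≤ g l := by
  classical
  obtain ⟨β0, hli, hβ0⟩ := Pool.Agent.NH28.greedy M hM (fun l => - g l) n (finrank_fin_fun K)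
  set σ : Equiv.Perm (Fin n) := Tuple.sort fun a => g (β0 a) with hσ
  have hli' : LinearIndependent K (fun a => M (β0 (σ a))) := hli.comp σ σ.injective
  refine ⟨fun a => β0 (σ a), hli', fun a b hab => Tuple.monotone_sort (fun a => g (β0 a)) hab,
    fun l hl => ?_⟩
  set B : Finset (Fin n) := univ.filter fun a => g (β0 (σ a)) ≤ g l with hB
  have hBc : B.card = (univ.filter fun a => - g l ≤ - g (β0 a)).card := by
    refine Finset.card_bij (fun a _ => σ a) (fun a ha => ?_) (fun a _ b _ h => σ.injective h)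
      (fun b hb => ⟨σ.symm b, ?_, by simp⟩)
    · rw [hB, Finset.mem_filter] at ha
      rw [Finset.mem_filter]
      exact ⟨Finset.mem_univ _, neg_le_neg ha.2⟩
    · rw [Finset.mem_filter] at hb
      rw [hB, Finset.mem_filter]
      exact ⟨Finset.mem_univ _, by simpa using hb.2⟩
  have h1 := hβ0 (- g l)
  rw [← hBc] at h1
  set X : Submodule K (Fin n → K) := Submodule.span K ((fun a => M (β0 (σ a))) '' (B : Set (Fin n)))
    with hX
  have hXf : finrank K X = B.card := by
    have h2 : LinearIndependent K (fun a : {a // a ∈ B} => M (β0 (σ a.1))) :=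
      hli'.comp _ Subtype.val_injective
    have h3 := finrank_span_eq_card h2
    rw [Fintype.card_coe] at h3
    have h4 : (fun a => M (β0 (σ a))) '' (B : Set (Fin n)) =
        Set.range (fun a : {a // a ∈ B} => M (β0 (σ a.1))) := by
      ext z
      constructor
      · rintro ⟨a, ha, rfl⟩
        exact ⟨⟨a, ha⟩, rfl⟩
      · rintro ⟨a, rfl⟩
        exact ⟨a.1, a.2, rfl⟩
    rw [← h3, hX, h4]
  have hXle : X ≤ Submodule.span K (M '' {i | - g l ≤ - g i}) := by
    refine Submodule.span_mono ?_
    rintro _ ⟨a, ha, rfl⟩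
    refine ⟨β0 (σ a), ?_, rfl⟩
    have := (Finset.mem_filter.1 (Finset.mem_coe.1 ha)).2
    exact neg_le_neg this
  have hXeq : X = Submodule.span K (M '' {i | - g l ≤ - g i}) :=
    Submodule.eq_of_le_of_finrank_le hXle (by rw [hXf]; exact h1)
  have hlX : M l ∈ X := by
    rw [hXeq]
    exact Submodule.subset_span ⟨l, le_refl (- g l), rfl⟩
  have hBne : B.Nonempty := by
    by_contra h
    rw [Finset.not_nonempty_iff_eq_empty] at h
    rw [hX, h] at hlX
    simp at hlX
    exact hl hlX
  refine ⟨B.max' hBne, ?_, ?_⟩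
  · refine (Submodule.span_mono ?_ : X ≤ _) hlX
    rintro _ ⟨a, ha, rfl⟩
    exact ⟨β0 (σ a), Finset.mem_coe.2 (Finset.mem_image.2 ⟨a, Finset.mem_filter.2
      ⟨Finset.mem_univ _, Fin.le_def.1 (B.le_max' a ha)⟩, rfl⟩), rfl⟩
  · exact (Finset.mem_filter.1 (B.max'_mem hBne)).2

/-- summation by parts -/
theorem abel' {ι : Type} [Fintype ι] (t : ι → ℕ) (N : ℕ) (ht : ∀ i, t i ≤ N) (l : ℕ → ℝ)
    (hl : l (N + 1) = 0) :
    ∑ i, l (t i) = ∑ s ∈ Finset.range (N + 1),
      (l s - l (s + 1)) * ((univ.filter fun i => t i ≤ s).card : ℝ) := by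
  classical
  have h1 : ∀ i, l (t i) = ∑ s ∈ Finset.range (N + 1), if t i ≤ s then l s - l (s + 1) else 0 := by
    intro i
    rw [← Finset.sum_filter]
    have h2 : (Finset.range (N + 1)).filter (fun s => t i ≤ s) = Finset.Ico (t i) (N + 1) := by
      ext s
      simp only [Finset.mem_filter, Finset.mem_range, Finset.mem_Ico]
      omega
    rw [h2, Finset.sum_Ico_eq_sum_range]
    have h3 := Finset.sum_range_sub' (fun a => l (t i + a)) (N + 1 - t i)
    have h4 : t i + (N + 1 - t i) = N + 1 := by have := ht i; omega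
    simp only [add_zero, h4, hl, sub_zero] at h3
    rw [← h3]
    exact Finset.sum_congr rfl fun a _ => by rw [add_assoc]
  simp only [h1]
  rw [Finset.sum_comm]
  refine Finset.sum_congr rfl fun s _ => ?_
  rw [Finset.sum_ite, Finset.sum_const_zero, add_zero, Finset.sum_const, nsmul_eq_mul, mul_comm]

end

section

variable {k K : Type} [Field k] [Field K] [Algebra k K] {n : ℕ}
  {ι : Type} [Fintype ι] [DecidableEq ι]

/-- the forms together with the coordinates -/
def ext (L : ι → Fin n → K) : ι ⊕ Fin n → Fin n → K := Sum.elim L fun j => Pi.single j 1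

theorem ext_span (L : ι → Fin n → K) : Submodule.span K (Set.range (ext L)) = ⊤ := by
  rw [eq_top_iff]
  intro w _
  have h1 : w = ∑ j, w j • ext L (Sum.inr j) := by
    funext l
    rw [Finset.sum_apply, Finset.sum_eq_single l]
    · simp [ext]
    · intro b _ hb
      simp [ext, Pi.single_eq_of_ne (Ne.symm hb)]
    · intro h
      exact absurd (Finset.mem_univ _) h
  rw [h1]
  exact Submodule.sum_mem _ fun j _ => Submodule.smul_mem _ _ (Submodule.subset_span ⟨_, rfl⟩)

theorem dot_single (j : Fin n) (x : Fin n → K) : dot (Pi.single j (1 : K) : Fin n → K) x = x j := by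
  unfold dot
  rw [Finset.sum_eq_single j]
  · simp
  · intro b _ hb
    rw [Pi.single_eq_of_ne hb, zero_mul]
  · intro h
    exact absurd (Finset.mem_univ _) h

/-- the local estimate for one ordered basis -/
theorem loc_bound (hn : 1 ≤ n) (f : AbsoluteValue K ℝ) (L : ι → Fin n → K)
    (β : Fin n → ι ⊕ Fin n) (hβ : (Matrix.of fun a => ext L (β a)).det ≠ 0) {m : ℕ}
    (V : Fin m → Submodule k (Fin n → k)) (y : Fin m → ℝ) (hy : ∀ i, 0 ≤ y i)
    (hcert : ∀ W : Submodule K (Fin n → K), W ≠ ⊤ → (nn L W : ℝ) ≤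
        ∑ i, y i * finrank K (W ⊓ exs K (V i) : Submodule K (Fin n → K))) :
    ∃ C : ℝ, 0 ≤ C ∧ ∀ x : Fin n → K, x ≠ 0 → (∀ l, dot (ext L l) x ≠ 0) →
      (∀ a b : Fin n, a ≤ b → f (dot (ext L (β a)) x) ≤ f (dot (ext L (β b)) x)) →
      (∀ l : ι, ∃ s : Fin n, L l ∈ flat (ext L) (pre β s.val) ∧
        f (dot (ext L (β s)) x) ≤ f (dot (L l) x)) →
      ∑ l, (Real.log (nrm f x) - Real.log (f (dot (L l) x))) ≤
        ∑ s ∈ Finset.range n, (hl f (ext L) β x s - hl f (ext L) β x (s + 1)) *
          (∑ i, y i * (dm (ext L) (pre β s) (V i) : ℝ)) + C := by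
  classical
  obtain ⟨N, hN⟩ : ∃ N, n = N + 1 := ⟨n - 1, by omega⟩
  have htop : flat (ext L) (pre β N) = ⊤ := flat_pre_top (ext L) β hβ N (by omega)
  -- the last form is not small
  have hlast : ∀ j : Fin n, ∃ C : ℝ, ∀ x : Fin n → K, x ≠ 0 → x j ≠ 0 →
      (∀ l, dot (ext L l) x ≠ 0) →
      (∀ a b : Fin n, a ≤ b → f (dot (ext L (β a)) x) ≤ f (dot (ext L (β b)) x)) →
      hl f (ext L) β x N ≤ Real.log (nrm f x) - Real.log (f (x j)) + C := by
    intro j
    obtain ⟨C, hC⟩ := hl_le f (ext L) β (s := N) (by omega) (g := Pi.single j 1)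
      (g' := Pi.single j 1) (by rw [htop]; trivial)
    refine ⟨C, fun x hx hxj hL hmono => ?_⟩
    have := hC x hx rfl (by rw [dot_single]; exact hxj) (fun a => hL _) hmono
    rwa [dot_single] at this
  choose Cj hCj using hlast
  refine ⟨(Fintype.card ι : ℝ) * ∑ j, |Cj j|, by positivity, fun x hx hL hmono hind => ?_⟩
  have hhl0 : ∀ s, 0 ≤ hl f (ext L) β x s := by
    intro s
    unfold hl
    split_ifs
    · exact le_max_left _ _
    · exact le_rfl
  have hanti : ∀ s, hl f (ext L) β x (s + 1) ≤ hl f (ext L) β x s := by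
    intro s
    unfold hl
    by_cases h : s + 1 < n
    · rw [dif_pos h, dif_pos (by omega)]
      refine max_le_max le_rfl (sub_le_sub_left ?_ _)
      exact Real.log_le_log (f.pos_iff.2 (hL _)) (hmono _ _ (by simp [Fin.le_def]))
    · rw [dif_neg h]
      by_cases h' : s < n
      · rw [dif_pos h']
        exact le_max_left _ _
      · rw [dif_neg h']
  have hanti' : ∀ s s' : ℕ, s ≤ s' → hl f (ext L) β x s' ≤ hl f (ext L) β x s :=
    fun s s' h => antitone_nat_of_succ_le hanti h
  -- the first index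
  have hex : ∀ l : ι, ∃ s : ℕ, L l ∈ flat (ext L) (pre β s) := fun l => by
    obtain ⟨s, hs, -⟩ := hind l
    exact ⟨s.val, hs⟩
  set t : ι → ℕ := fun l => Nat.find (hex l) with ht
  have htle : ∀ l, t l ≤ N := fun l => by
    obtain ⟨s, hs, -⟩ := hind l
    have h1 : t l ≤ s.val := Nat.find_min' (hex l) hs
    have := s.2
    omega
  have htiff : ∀ l s, t l ≤ s ↔ L l ∈ flat (ext L) (pre β s) := by
    intro l s
    constructor
    · intro h
      exact flat_mono (ext L) (pre_mono β h) (Nat.find_spec (hex l))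
    · intro h
      exact Nat.find_min' (hex l) h
  have h1 : ∑ l, (Real.log (nrm f x) - Real.log (f (dot (L l) x))) ≤
      ∑ l, hl f (ext L) β x (t l) := by
    refine Finset.sum_le_sum fun l _ => ?_
    obtain ⟨s, hs, hfs⟩ := hind l
    refine le_trans ?_ (hanti' (t l) s.val (Nat.find_min' (hex l) hs))
    unfold hl
    rw [dif_pos s.2]
    refine le_trans ?_ (le_max_right _ _)
    exact sub_le_sub_left (Real.log_le_log (f.pos_iff.2 (hL _)) hfs) _
  refine h1.trans ?_
  rw [abel' t N htle (hl f (ext L) β x) (by unfold hl; rw [dif_neg (by omega)]), ← hN]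
  have hcardnn : ∀ s, ((univ.filter fun l => t l ≤ s).card : ℝ) = nn L (flat (ext L) (pre β s)) := by
    intro s
    unfold nn
    congr 2
    ext l
    rw [Finset.mem_filter, Finset.mem_filter, htiff]
  have hyd : ∀ s, 0 ≤ ∑ i, y i * (dm (ext L) (pre β s) (V i) : ℝ) := fun s =>
    Finset.sum_nonneg fun i _ => mul_nonneg (hy i) (Nat.cast_nonneg _)
  have hli : LinearIndependent K (fun a => ext L (β a)) :=
    Matrix.linearIndependent_rows_of_det_ne_zero hβ
  have hproper : ∀ s, s < N → flat (ext L) (pre β s) ≠ ⊤ := by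
    intro s hs h
    have h2 := finrank_flat_le (ext L) (pre β s)
    rw [h, finrank_top, finrank_fin_fun] at h2
    have h3 : (pre β s).card ≤ s + 1 := by
      unfold pre
      refine Finset.card_image_le.trans ?_
      have h4 : (univ.filter fun a : Fin n => a.val ≤ s) ⊆
          (Finset.univ.filter fun a : Fin n => a ∈ Finset.Iic (⟨s, by omega⟩ : Fin n)) := by
        intro a ha
        simp only [Finset.mem_filter, Finset.mem_univ, true_and, Finset.mem_Iic, Fin.le_def] at ha ⊢
        exact ha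
      refine (Finset.card_le_card h4).trans ?_
      rw [Finset.filter_mem_eq_inter, Finset.univ_inter, Fin.card_Iic]
    omega
  have hsplit : ∀ s ∈ Finset.range n, (hl f (ext L) β x s - hl f (ext L) β x (s + 1)) *
      ((univ.filter fun l => t l ≤ s).card : ℝ) ≤
      (hl f (ext L) β x s - hl f (ext L) β x (s + 1)) *
        (∑ i, y i * (dm (ext L) (pre β s) (V i) : ℝ)) +
        if s = N then (Fintype.card ι : ℝ) * hl f (ext L) β x N else 0 := by
    intro s hs
    have hs' := Finset.mem_range.1 hs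
    have hd : 0 ≤ hl f (ext L) β x s - hl f (ext L) β x (s + 1) := sub_nonneg.2 (hanti s)
    by_cases h : s = N
    · rw [if_pos h]
      have h2 : ((univ.filter fun l => t l ≤ s).card : ℝ) ≤ Fintype.card ι := by
        exact_mod_cast Finset.card_le_univ _
      have h3 : hl f (ext L) β x s - hl f (ext L) β x (s + 1) ≤ hl f (ext L) β x N := by
        rw [h]
        have := hhl0 (N + 1)
        linarith
      have h4 := mul_nonneg hd (hyd s)
      have h5 : (hl f (ext L) β x s - hl f (ext L) β x (s + 1)) *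
          ((univ.filter fun l => t l ≤ s).card : ℝ) ≤ hl f (ext L) β x N * Fintype.card ι :=
        mul_le_mul h3 h2 (Nat.cast_nonneg _) (hhl0 N)
      linarith
    · rw [if_neg h, add_zero, hcardnn]
      exact mul_le_mul_of_nonneg_left (hcert _ (hproper s (by omega))) hd
  refine (Finset.sum_le_sum hsplit).trans ?_
  rw [Finset.sum_add_distrib]
  refine add_le_add le_rfl ?_
  rw [Finset.sum_ite_eq' (Finset.range n) N, if_pos (Finset.mem_range.2 (by omega))]
  refine mul_le_mul_of_nonneg_left ?_ (Nat.cast_nonneg _)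
  obtain ⟨j, hj⟩ := exists_nrm f hn x
  have hxj : x j ≠ 0 := by
    intro h0
    rw [h0, map_zero] at hj
    exact (nrm_pos f hx).ne hj
  have h2 := hCj j x hx hxj hL hmono
  rw [hj, sub_self, zero_add] at h2
  refine h2.trans ((le_abs_self _).trans ?_)
  exact Finset.single_le_sum (f := fun j => |Cj j|) (fun _ _ => abs_nonneg _) (Finset.mem_univ j)

end

end Pool.Agent.H13.WS
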