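import Mathlib
import Pool.Agent.H13.WS.Loc

/-!
The global estimate for a Galois stable family of linear forms.
-/

set_option autoImplicit false
set_option linter.unusedSectionVars false

open Finset Module

namespace Pool.Agent.H13.WS

open NumberField IsDedekindDomain Height
open Pool.Agent.R405 (exv exs exs_bot finrank_exs exs_inf flat dot pre hl hl_le flat_mono pre_mono
  flat_pre_top dm abel Good finite_HN IsHN dg deg Srt hl_anti treeV deg_top exists_HN exv_ne dot_exv)
open Pool.Agent.W180.OP (Pl av wt nrm le_nrm nrm_pos nrm_nonneg exists_nrm wt_nonneg)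

variable {k K : Type} [Field k] [NumberField k] [Field K] [NumberField K] [Algebra k K] {n : ℕ}

/-- the degrees of all rational subspaces, at the points outside of the finitely many
destabilizing subspaces -/
theorem hnU {κ : Type} [Fintype κ] [DecidableEq κ] [IsGalois ℚ K] (hi : ∃ z : K, z ^ 2 = -1)
    (hn : 1 ≤ n) (S : Finset (Pl k))
    (f : Pl k → AbsoluteValue K ℝ) (hf : ∀ v ∈ S, Good v (f v)) (L : κ → Fin n → K)
    (β : Pl k → Fin n → κ) (hβ : ∀ v ∈ S, (Matrix.of fun a => L (β v a)).det ≠ 0)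
    (ε : ℝ) (hε : 0 < ε) :
    ∃ C : ℝ, 0 ≤ C ∧ ∀ x : Fin n → k, Srt S f L β x →
      (∀ U ∈ (finite_HN (k := k) L).toFinset, ∃ u ∈ U, ∑ j, u j * x j ≠ 0) →
      ∀ V : Submodule k (Fin n → k), deg S f L β x V ≤
        finrank k V * ((1 + ε) * logHeight x + C) := by
  classical
  have htree : ∀ U : Submodule k (Fin n → k), ∃ C : ℝ, 0 ≤ C ∧ (U ≠ ⊥ → ∀ x : Fin n → k,
      Srt S f L β x → (∃ u ∈ U, ∑ j, u j * x j ≠ 0) → ∃ U'' < U,
        deg S f L β x U - deg S f L β x U'' ≤
          ((finrank k U : ℝ) - finrank k U'' + ε) * logHeight x + C) := by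
    intro U
    by_cases hU : U = ⊥
    · exact ⟨0, le_rfl, fun h => absurd hU h⟩
    · obtain ⟨C, hC, h⟩ := treeV hi hn S f hf L β hβ U ε hε (finrank k U) ⊥
        (bot_lt_iff_ne_bot.2 hU) (by omega)
      refine ⟨C, hC, fun _ x hx hUx => h x hx (fun u hu => ?_) hUx⟩
      rw [(Submodule.mem_bot k).1 hu]
      simp
  choose C hC hCU using htree
  refine ⟨∑ U ∈ (finite_HN (k := k) L).toFinset, C U,
    Finset.sum_nonneg fun U _ => hC U, fun x hx hZ V => ?_⟩
  set w : Finset κ → ℝ := fun A => ∑ v ∈ S, wt v * ∑ s ∈ Finset.range n,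
    (hl (f v) L (β v) (exv K x) s - hl (f v) L (β v) (exv K x) (s + 1)) *
      (if pre (β v) s = A then 1 else 0) with hw
  have hw0 : ∀ A, 0 ≤ w A := by
    intro A
    refine Finset.sum_nonneg fun v hv => mul_nonneg (wt_nonneg v) (Finset.sum_nonneg fun s _ =>
      mul_nonneg (sub_nonneg.2 (hl_anti L (β v) _ (hx.2.1 v hv) (hx.2.2 v hv) s)) ?_)
    split_ifs
    · exact zero_le_one
    · exact le_rfl
  have hdeg : ∀ U : Submodule k (Fin n → k), dg L w U = deg S f L β x U := by
    intro U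
    unfold dg deg
    simp only [hw, Finset.sum_mul]
    rw [Finset.sum_comm]
    refine Finset.sum_congr rfl fun v _ => ?_
    have h1 : ∀ A, wt v * (∑ s ∈ Finset.range n,
        (hl (f v) L (β v) (exv K x) s - hl (f v) L (β v) (exv K x) (s + 1)) *
        (if pre (β v) s = A then (1 : ℝ) else 0)) * (dm L A U : ℝ) = wt v * ∑ s ∈ Finset.range n,
        (hl (f v) L (β v) (exv K x) s - hl (f v) L (β v) (exv K x) (s + 1)) *
        (if pre (β v) s = A then (dm L A U : ℝ) else 0) := by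
      intro A
      rw [mul_assoc, Finset.sum_mul]
      congr 1
      refine Finset.sum_congr rfl fun s _ => ?_
      split_ifs <;> ring
    simp only [h1]
    rw [← Finset.mul_sum, Finset.sum_comm]
    congr 1
    refine Finset.sum_congr rfl fun s _ => ?_
    rw [← Finset.mul_sum, Finset.sum_ite_eq]
    simp
  obtain ⟨U, μ, hU⟩ := exists_HN (k := k) L hn w
  have hUmem : U ∈ (finite_HN (k := k) L).toFinset :=
    (Set.Finite.mem_toFinset _).2 ⟨w, μ, hw0, hU⟩
  obtain ⟨h1, h2, h3, -⟩ := hU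
  obtain ⟨U'', hlt, h4⟩ := hCU U h1 x hx (hZ U hUmem)
  have h5 := h3 V
  have h6 := h3 U''
  rw [hdeg] at h2 h5 h6
  have hm : (finrank k U'' : ℝ) + 1 ≤ finrank k U := by
    exact_mod_cast Submodule.finrank_lt_finrank_of_lt hlt
  have hCle : C U ≤ ∑ U ∈ (finite_HN (k := k) L).toFinset, C U :=
    Finset.single_le_sum (f := C) (fun U _ => hC U) hUmem
  set D := ∑ U ∈ (finite_HN (k := k) L).toFinset, C U with hD
  have hh := logHeight_nonneg x
  have hD0 : 0 ≤ D := (hC U).trans hCle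
  set m : ℝ := (finrank k U : ℝ) - finrank k U'' with hmdef
  have hm1 : 1 ≤ m := by rw [hmdef]; linarith
  have h7 : μ * m ≤ (m + ε) * logHeight x + C U := by
    have : μ * m = μ * finrank k U - μ * finrank k U'' := by rw [hmdef]; ring
    rw [this]
    linarith
  have h8 : μ ≤ (1 + ε) * logHeight x + D := by
    by_contra hcon
    push Not at hcon
    have h9 : m * ((1 + ε) * logHeight x + D) < m * μ :=
      mul_lt_mul_of_pos_left hcon (by linarith)
    have h10 : 0 ≤ (m - 1) * (ε * logHeight x) := mul_nonneg (by linarith)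
      (mul_nonneg hε.le hh)
    have h11 : 0 ≤ (m - 1) * D := mul_nonneg (by linarith) hD0
    linarith
  have h9 := mul_le_mul_of_nonneg_right h8 (Nat.cast_nonneg (α := ℝ) (finrank k V))
  linarith

/-- **The estimate for a family of linear forms with a certificate.** The exceptional hyperplanes
depend only on the forms. -/
theorem partC [IsGalois ℚ K] (hi : ∃ z : K, z ^ 2 = -1) (hn : 1 ≤ n)
    {ι : Type} [Fintype ι] [DecidableEq ι] (L : ι → Fin n → K) (hL0 : ∀ i, L i ≠ 0) (c0 : ℝ)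
    (hc0 : 0 < c0)
    (hcertif : ∃ (m : ℕ) (V : Fin m → Submodule k (Fin n → k)) (y : Fin m → ℝ), (∀ i, 0 ≤ y i) ∧
      (∀ W : Submodule K (Fin n → K), W ≠ ⊤ → (nn L W : ℝ) ≤
        ∑ i, y i * finrank K (W ⊓ exs K (V i) : Submodule K (Fin n → K))) ∧
      ∑ i, y i * finrank k (V i) ≤ c0) :
    ∃ Z : Finset (Fin n → k), (∀ z ∈ Z, z ≠ 0) ∧ ∀ (S : Finset (Pl k))
      (f : Pl k → AbsoluteValue K ℝ), (∀ v ∈ S, Good v (f v)) → ∀ ε : ℝ, 0 < ε →
      ∃ C : ℝ, 0 ≤ C ∧ ∀ x : Fin n → k, (∀ z ∈ Z, ∑ j, z j * x j ≠ 0) →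
        (∀ i, dot (L i) (exv K x) ≠ 0) →
        ∑ v ∈ S, wt v * ∑ i, (Real.log (nrm (av v) x) -
          Real.log (f v (dot (L i) (exv K x)))) ≤ (c0 + ε) * logHeight x + C := by
  classical
  obtain ⟨m, V, y, hy, hcert, hsum⟩ := hcertif
  -- one form for each destabilizing subspace
  have hex : ∀ U : Submodule k (Fin n → k), ∃ u : Fin n → k, U ≠ ⊥ → u ∈ U ∧ u ≠ 0 := by
    intro U
    by_cases hU : U = ⊥
    · exact ⟨0, fun h => absurd hU h⟩
    · obtain ⟨u, hu, hu0⟩ := Submodule.exists_mem_ne_zero_of_ne_bot hU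
      exact ⟨u, fun _ => ⟨hu, hu0⟩⟩
  choose u hu using hex
  set L' := ext L with hL'
  refine ⟨(finite_HN (k := k) L').toFinset.image u ∪
    (Finset.univ.image fun j : Fin n => (Pi.single j 1 : Fin n → k)), ?_, fun S f hf ε hε => ?_⟩
  · intro z hz
    rcases Finset.mem_union.1 hz with hz | hz
    · obtain ⟨U, hU, rfl⟩ := Finset.mem_image.1 hz
      obtain ⟨w, μ, -, h1, -⟩ := (Set.Finite.mem_toFinset _).1 hU
      exact (hu U h1).2
    · obtain ⟨j, -, rfl⟩ := Finset.mem_image.1 hz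
      intro h
      have := congrFun h j
      rw [Pi.single_eq_same] at this
      exact one_ne_zero this
  -- the small parameter
  set ε' : ℝ := ε / c0 with hε'
  have hε'0 : 0 < ε' := div_pos hε hc0
  -- the local constants
  have hloc : ∀ (v : Pl k) (b : Fin n → ι ⊕ Fin n), ∃ C : ℝ, 0 ≤ C ∧
      ((Matrix.of fun a => L' (b a)).det ≠ 0 → ∀ x : Fin n → K, x ≠ 0 →
      (∀ l, dot (L' l) x ≠ 0) →
      (∀ a c : Fin n, a ≤ c → f v (dot (L' (b a)) x) ≤ f v (dot (L' (b c)) x)) →
      (∀ l : ι, ∃ s : Fin n, L l ∈ flat L' (pre b s.val) ∧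
        f v (dot (L' (b s)) x) ≤ f v (dot (L l) x)) →
      ∑ l, (Real.log (nrm (f v) x) - Real.log (f v (dot (L l) x))) ≤
        ∑ s ∈ Finset.range n, (hl (f v) L' b x s - hl (f v) L' b x (s + 1)) *
          (∑ i, y i * (dm L' (pre b s) (V i) : ℝ)) + C) := by
    intro v b
    by_cases hb : (Matrix.of fun a => L' (b a)).det ≠ 0
    · obtain ⟨C, hC, h⟩ := loc_bound hn (f v) L b hb V y hy hcert
      exact ⟨C, hC, fun _ => h⟩
    · exact ⟨0, le_rfl, fun h => absurd h hb⟩
  choose Cl hCl0 hCl using hloc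
  set b0 : Fin n → ι ⊕ Fin n := fun a => Sum.inr a with hb0
  set exx : ({v // v ∈ S} → Fin n → ι ⊕ Fin n) → Pl k → Fin n → ι ⊕ Fin n := fun r v =>
      if h : v ∈ S then r ⟨v, h⟩ else b0 with hexx
  have hC : ∀ r : {v // v ∈ S} → Fin n → ι ⊕ Fin n, ∃ C : ℝ, 0 ≤ C ∧
        ((∀ v ∈ S, (Matrix.of fun a => L' (exx r v a)).det ≠ 0) → ∀ x : Fin n → k,
        Srt S f L' (exx r) x →
        (∀ U ∈ (finite_HN (k := k) L').toFinset, ∃ u ∈ U, ∑ j, u j * x j ≠ 0) →
        ∀ V : Submodule k (Fin n → k), deg S f L' (exx r) x V ≤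
          finrank k V * ((1 + ε') * logHeight x + C)) := by
    intro r
    by_cases hr : ∀ v ∈ S, (Matrix.of fun a => L' (exx r v a)).det ≠ 0
    · obtain ⟨C, hC, h⟩ := hnU hi hn S f hf L' (exx r) hr ε' hε'0
      exact ⟨C, hC, fun _ => h⟩
    · exact ⟨0, le_rfl, fun h => absurd h hr⟩
  choose C hC0 hCr using hC
  set C1 : ℝ := ∑ r, C r with hC1
  set C2 : ℝ := ∑ v ∈ S, wt v * ∑ b, Cl v b with hC2
  have hC10 : 0 ≤ C1 := Finset.sum_nonneg fun r _ => hC0 r
  have hC20 : 0 ≤ C2 := Finset.sum_nonneg fun v _ => mul_nonneg (wt_nonneg v)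
    (Finset.sum_nonneg fun b _ => hCl0 v b)
  refine ⟨c0 * C1 + C2, by positivity, fun x hZ hLx => ?_⟩
  have hxj : ∀ j, x j ≠ 0 := by
    intro j
    have h1 := hZ (Pi.single j 1) (Finset.mem_union_right _ (Finset.mem_image_of_mem _
      (Finset.mem_univ j)))
    intro h0
    apply h1
    rw [Finset.sum_eq_single j]
    · rw [Pi.single_eq_same, one_mul, h0]
    · intro b _ hb
      rw [Pi.single_eq_of_ne hb, zero_mul]
    · intro h
      exact absurd (Finset.mem_univ _) h
  have hx : x ≠ 0 := by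
    intro h
    exact hxj ⟨0, hn⟩ (by rw [h]; rfl)
  have hL'x : ∀ l, dot (L' l) (exv K x) ≠ 0 := by
    intro l
    rcases l with l | j
    · exact hLx l
    · show dot (Pi.single j (1 : K) : Fin n → K) (exv K x) ≠ 0
      rw [dot_single]
      show algebraMap k K (x j) ≠ 0
      exact (map_ne_zero _).2 (hxj j)
  -- the sorted bases
  have hsort := fun v : Pl k => sorted_basis L' (ext_span L) (fun l => f v (dot (L' l) (exv K x)))
  choose β hβ1 hβ2 hβ3 using hsort
  set r : {v // v ∈ S} → Fin n → ι ⊕ Fin n := fun v => β v.1 with hr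
  have hexr : ∀ v ∈ S, exx r v = β v := by
    intro v hv
    simp only [hexx, hr, hv, dif_pos]
  have hdet : ∀ v ∈ S, (Matrix.of fun a => L' (exx r v a)).det ≠ 0 := by
    intro v hv
    rw [hexr v hv]
    have h3 : LinearIndependent K (Matrix.of fun a => L' (β v a)).row := hβ1 v
    rw [Matrix.linearIndependent_rows_iff_isUnit, Matrix.isUnit_iff_isUnit_det] at h3
    exact h3.ne_zero
  have hsrt : Srt S f L' (exx r) x := by
    refine ⟨hx, fun v hv a => hL'x _, fun v hv a b hab => ?_⟩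
    rw [hexr v hv]
    exact hβ2 v a b hab
  have hdeg := hCr r hdet x hsrt (fun U hU => by
    obtain ⟨w, μ, -, h1, -⟩ := (Set.Finite.mem_toFinset _).1 hU
    exact ⟨u U, (hu U h1).1, hZ _ (Finset.mem_union_left _ (Finset.mem_image_of_mem _ hU))⟩)
  -- the local estimates
  have h1 : ∀ v ∈ S, wt v * ∑ i, (Real.log (nrm (av v) x) -
      Real.log (f v (dot (L i) (exv K x)))) ≤
      wt v * (∑ s ∈ Finset.range n, (hl (f v) L' (exx r v) (exv K x) s -
        hl (f v) L' (exx r v) (exv K x) (s + 1)) *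
          (∑ i, y i * (dm L' (pre (exx r v) s) (V i) : ℝ))) + wt v * ∑ b, Cl v b := by
    intro v hv
    rw [← mul_add]
    refine mul_le_mul_of_nonneg_left ?_ (wt_nonneg v)
    have h2 := hCl v (exx r v) (hdet v hv) (exv K x) (exv_ne hx) hL'x (fun a c hac => by
      rw [hexr v hv]
      exact hβ2 v a c hac) (fun l => by
      rw [hexr v hv]
      obtain ⟨s, hs, hs'⟩ := hβ3 v (Sum.inl l) (hL0 l)
      exact ⟨s, hs, hs'⟩)
    have h3 : nrm (f v) (exv K x) = nrm (av v) x := (hf v hv).nrm_ext x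
    rw [h3] at h2
    refine h2.trans (add_le_add le_rfl ?_)
    exact Finset.single_le_sum (f := fun b => Cl v b) (fun b _ => hCl0 v b) (Finset.mem_univ _)
  refine (Finset.sum_le_sum h1).trans ?_
  rw [Finset.sum_add_distrib, ← hC2]
  have h2 : ∑ v ∈ S, wt v * (∑ s ∈ Finset.range n, (hl (f v) L' (exx r v) (exv K x) s -
        hl (f v) L' (exx r v) (exv K x) (s + 1)) *
          (∑ i, y i * (dm L' (pre (exx r v) s) (V i) : ℝ))) =
      ∑ i, y i * deg S f L' (exx r) x (V i) := by
    unfold deg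
    simp only [Finset.mul_sum]
    symm
    rw [Finset.sum_comm]
    refine Finset.sum_congr rfl fun v _ => ?_
    rw [Finset.sum_comm]
    exact Finset.sum_congr rfl fun s _ => Finset.sum_congr rfl fun i _ => by ring
  rw [h2]
  have hh := logHeight_nonneg x
  have h3 : ∑ i, y i * deg S f L' (exx r) x (V i) ≤
      c0 * ((1 + ε') * logHeight x + C1) := by
    have hCle : C r ≤ C1 := Finset.single_le_sum (f := C) (fun r _ => hC0 r) (Finset.mem_univ r)
    have hB : 0 ≤ (1 + ε') * logHeight x + C1 := by positivity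
    calc ∑ i, y i * deg S f L' (exx r) x (V i) ≤
        ∑ i, y i * (finrank k (V i) * ((1 + ε') * logHeight x + C1)) := by
          refine Finset.sum_le_sum fun i _ => mul_le_mul_of_nonneg_left ?_ (hy i)
          refine (hdeg (V i)).trans (mul_le_mul_of_nonneg_left ?_ (Nat.cast_nonneg _))
          linarith
      _ = (∑ i, y i * finrank k (V i)) * ((1 + ε') * logHeight x + C1) := by
          rw [Finset.sum_mul]
          exact Finset.sum_congr rfl fun i _ => by ring
      _ ≤ _ := mul_le_mul_of_nonneg_right hsum hB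
  have h4 : c0 * ((1 + ε') * logHeight x + C1) = (c0 + ε) * logHeight x + c0 * C1 := by
    have : c0 * ε' = ε := by
      rw [hε']
      field_simp
    calc c0 * ((1 + ε') * logHeight x + C1) =
        (c0 + c0 * ε') * logHeight x + c0 * C1 := by ring
      _ = _ := by rw [this]
  linarith

end Pool.Agent.H13.WS
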