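import Mathlib
import Pool.Agent.H13.WS.Arith

/-!
Linear forms in general position, generic for the Galois group.
-/

set_option autoImplicit false
set_option linter.unusedSectionVars false

open Finset Module

namespace Pool.Agent.H13.WS

open NumberField IsDedekindDomain Height
open Pool.Agent.R405 (exv exs exs_bot finrank_exs exs_inf flat dot dot_add dot_smul dot_sum dot_exv
  Good exv_ne exv_li exv_sum exv_smul rect_bound projH)
open Pool.Agent.W180.OP (Pl av wt nrm le_nrm nrm_pos nrm_nonneg exists_nrm wt_nonneg)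

section cert

variable {k K : Type} [Field k] [Field K] [Algebra k K] {n : ℕ}
variable {ι : Type} [Fintype ι] [DecidableEq ι] (L : ι → Fin n → K)
variable {κ : Type} [Fintype κ] [DecidableEq κ] (R : κ → Fin n → K)

theorem ex_mono {W W' : Submodule K (Fin n → K)} (h : W ≤ W') : ex R W ≤ ex R W' := by
  obtain ⟨A, hA, hA'⟩ := exists_ex R W
  rw [hA']
  exact le_ex R (hA.trans h)

theorem ex_le_card (W : Submodule K (Fin n → K)) : ex R W ≤ Fintype.card κ := by
  obtain ⟨A, hA, hA'⟩ := exists_ex R W
  have := Finset.card_le_univ A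
  omega

/-- the certificate for a count bounded by the excess of a subfamily -/
theorem cert_excess [FiniteDimensional k K] [IsGalois k K] (hR0 : ∀ i, R i ≠ 0)
    (hgal : ∀ σ : K ≃ₐ[k] K, ∃ π : Equiv.Perm κ, ∀ i, ∃ c : K, c ≠ 0 ∧
      R (π i) = c • cj σ (R i))
    (hcnt : ∀ W : Submodule K (Fin n → K), W ≠ ⊤ → nn L W ≤ finrank K W + ex R W) :
    ∃ (m : ℕ) (V : Fin m → Submodule k (Fin n → k)) (y : Fin m → ℝ), (∀ i, 0 ≤ y i) ∧
      (∀ W : Submodule K (Fin n → K), W ≠ ⊤ → (nn L W : ℝ) ≤
        ∑ i, y i * finrank K (W ⊓ exs K (V i) : Submodule K (Fin n → K))) ∧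
      ∑ i, y i * finrank k (V i) ≤ n + ex R ⊤ := by
  classical
  set Ψ : Submodule K (Fin n → K) → ℝ := fun W => ex R W with hΨ
  obtain ⟨m, V, y, hy, hVy, hsum⟩ := exists_cert (k := k) (K := K) (n := n) n ⊤
    (by rw [finrank_top, finrank_fin_fun]) Ψ
    (by
      refine ((Set.finite_Iic (Fintype.card κ)).image (fun m : ℕ => (m : ℝ))).subset ?_
      rintro _ ⟨W, rfl⟩
      exact ⟨ex R W, ex_le_card R W, rfl⟩)
    (fun W W' => by
      show (ex R W : ℝ) + ex R W' ≤ ex R (W ⊔ W') + ex R (W ⊓ W')
      exact_mod_cast ex_super R W W')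
    (by
      show (ex R ⊥ : ℝ) = 0
      rw [ex_bot R hR0, Nat.cast_zero])
    (fun σ W => by
      show (ex R (act σ W) : ℝ) = ex R W
      rw [ex_act R hgal])
    (fun W _ => by
      rw [exs_top']
      show (ex R W : ℝ) ≤ ex R ⊤
      exact_mod_cast ex_mono R le_top)
  rw [exs_top'] at hsum
  refine ⟨m + 1, Fin.cons ⊤ V, Fin.cons 1 y, fun i => ?_, fun W hW => ?_, ?_⟩
  · refine Fin.cases ?_ (fun j => ?_) i
    · exact zero_le_one
    · exact hy j
  · rw [Fin.sum_univ_succ]
    show (nn L W : ℝ) ≤ 1 * finrank K (W ⊓ exs K (⊤ : Submodule k (Fin n → k)) :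
        Submodule K (Fin n → K)) +
      ∑ i, y i * finrank K (W ⊓ exs K (V i) : Submodule K (Fin n → K))
    rw [exs_top', inf_top_eq, one_mul]
    have h1 : (ex R W : ℝ) ≤ _ := hVy W (by rw [exs_top']; exact le_top)
    have h2 : (nn L W : ℝ) ≤ finrank K W + ex R W := by exact_mod_cast hcnt W hW
    linarith
  · rw [Fin.sum_univ_succ]
    show 1 * (finrank k (⊤ : Submodule k (Fin n → k)) : ℝ) + ∑ i, y i * finrank k (V i) ≤
      n + ex R ⊤
    rw [finrank_top, finrank_fin_fun, one_mul]
    have h1 : ∑ i, y i * finrank k (V i) ≤ (ex R ⊤ : ℝ) := hsum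
    linarith

end cert

section restrict

variable {k K : Type} [Field k] [Field K] [Algebra k K]
variable {N n0 : ℕ} (e : Fin N → Fin n0 → k)

/-- restriction of a form to the subspace with basis `e` -/
noncomputable def rs (g : Fin n0 → K) : Fin N → K := fun l => dot g (exv K (e l))

theorem rs_smul (c : K) (g : Fin n0 → K) : rs e (c • g) = c • rs e g := by
  funext l
  simp [rs, dot_smul]

theorem rs_cj (σ : K ≃ₐ[k] K) (g : Fin n0 → K) : rs e (cj σ g) = cj σ (rs e g) := by
  funext l
  simp only [rs, cj, dot, map_sum, map_mul, exv]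
  exact Finset.sum_congr rfl fun j _ => by rw [AlgEquiv.commutes]

/-- the value at a point of the subspace -/
theorem dot_rs (g : Fin n0 → K) (c : Fin N → k) :
    dot (rs e g) (exv K c) = dot g (exv K (∑ l, c l • e l)) := by
  rw [exv_sum]
  simp only [rs, dot, Finset.sum_apply, exv_smul, Pi.smul_apply, smul_eq_mul, Finset.mul_sum,
    Finset.sum_mul]
  rw [Finset.sum_comm]
  refine Finset.sum_congr rfl fun j _ => Finset.sum_congr rfl fun l _ => ?_
  simp only [exv]
  ring

/-- restriction as a linear map -/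
noncomputable def rsL : (Fin n0 → K) →ₗ[K] (Fin N → K) :=
  Matrix.mulVecLin (Matrix.of fun l j => algebraMap k K (e l j))

theorem rsL_apply (g : Fin n0 → K) : rsL e g = rs e g := by
  funext l
  simp only [rsL, Matrix.mulVecLin_apply, Matrix.mulVec, dotProduct, Matrix.of_apply, rs, dot, exv]
  exact Finset.sum_congr rfl fun j _ => mul_comm _ _

theorem finrank_ker_rsL (he : LinearIndependent k e) :
    finrank K (LinearMap.ker (rsL (K := K) e)) + N = n0 := by
  have h1 : LinearIndependent K (fun l => exv K (e l)) := exv_li he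
  have h2 : (Matrix.of fun l j => algebraMap k K (e l j) : Matrix (Fin N) (Fin n0) K).rank =
      Fintype.card (Fin N) := LinearIndependent.rank_matrix h1
  have h3 := LinearMap.finrank_range_add_finrank_ker (rsL (K := K) e)
  have h4 : finrank K (LinearMap.range (rsL (K := K) e)) = N := by
    rw [Fintype.card_fin] at h2
    exact h2
  rw [finrank_fin_fun] at h3
  omega

variable {ι : Type} [Fintype ι] [DecidableEq ι] (L : ι → Fin n0 → K)

/-- forms in general position have few restrictions in a proper subspace -/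
theorem gp_count (hgp : ∀ B : Finset ι, B.card ≤ n0 → LinearIndependent K fun i : B => L i)
    (he : LinearIndependent k e) (W : Submodule K (Fin N → K)) (hW : W ≠ ⊤) :
    nn (fun i => rs e (L i)) W ≤ (n0 - N) + finrank K W := by
  classical
  by_contra hcon
  push Not at hcon
  have hker := finrank_ker_rsL (K := K) e he
  have hWN : finrank K W < N := by
    have := Submodule.finrank_lt hW
    rwa [finrank_fin_fun] at this
  have hN : N ≤ n0 := by omega
  unfold nn at hcon
  obtain ⟨B, hBA, hBc⟩ := Finset.exists_subset_card_eq (Nat.succ_le_of_lt hcon)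
  have hli := hgp B (by omega)
  set X : Submodule K (Fin n0 → K) := Submodule.span K (Set.range fun i : B => L i) with hX
  have hXf : finrank K X = B.card := by
    rw [hX, finrank_span_eq_card hli, Fintype.card_coe]
  have hmap : X.map (rsL e) ≤ W := by
    rw [hX, Submodule.map_span, Submodule.span_le]
    rintro _ ⟨_, ⟨i, rfl⟩, rfl⟩
    rw [rsL_apply]
    exact (Finset.mem_filter.1 (hBA i.2)).2
  have h1 := LinearMap.finrank_range_add_finrank_ker ((rsL e).domRestrict X)
  have h2 : finrank K (LinearMap.range ((rsL e).domRestrict X)) ≤ finrank K W := by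
    refine Submodule.finrank_mono ?_
    rintro _ ⟨z, rfl⟩
    exact hmap ⟨z.1, z.2, rfl⟩
  have h3 : finrank K (LinearMap.ker ((rsL e).domRestrict X)) ≤
      finrank K (LinearMap.ker (rsL (K := K) e)) := by
    have hm : ∀ z : LinearMap.ker ((rsL e).domRestrict X), (z.1 : X).1 ∈ LinearMap.ker (rsL (K := K) e) := by
      intro z
      exact z.2
    let g : LinearMap.ker ((rsL e).domRestrict X) →ₗ[K] LinearMap.ker (rsL (K := K) e) :=
      { toFun := fun z => ⟨(z.1 : X).1, hm z⟩
        map_add' := fun _ _ => rfl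
        map_smul' := fun _ _ => rfl }
    refine LinearMap.finrank_le_finrank_of_injective (f := g) ?_
    intro a b hab
    have := congrArg Subtype.val hab
    exact Subtype.ext (Subtype.ext this)
  rw [hXf] at h1
  omega

/-- the family of the restrictions -/
noncomputable def rf : ι → Fin N → K := fun i => rs e (L i)

theorem rank_small (hgp : ∀ B : Finset ι, B.card ≤ n0 → LinearIndependent K fun i : B => L i)
    (he : LinearIndependent k e) (hN : N ≤ n0) (B : Finset ι) :
    B.card ≤ (max n0 B.card - N) + finrank K (flat (rf e L) B) := by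
  by_cases h : flat (rf e L) B = ⊤
  · rw [h, finrank_top, finrank_fin_fun]
    omega
  · have h1 := gp_count e L hgp he _ h
    have h2 := card_le_nn (rf e L) B
    have h3 : nn (rf e L) (flat (rf e L) B) = nn (fun i => rs e (L i)) (flat (rf e L) B) := rfl
    omega

/-- a generic form is a coloop of every proper flat of restrictions -/
theorem coloop (hgp : ∀ B : Finset ι, B.card ≤ n0 → LinearIndependent K fun i : B => L i)
    (he : LinearIndependent k e) (hN : N ≤ n0)
    (π : (K ≃ₐ[k] K) → Equiv.Perm ι)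
    (hπ : ∀ σ i, ∃ c : K, c ≠ 0 ∧ L (π σ i) = c • cj σ (L i)) (α : ι)
    (hgen : ∀ B : Finset ι, B.card < n0 → α ∉ B →
      n0 ≤ B.card + Set.ncard {β | ∃ σ, (∀ b ∈ B, π σ b = b) ∧ π σ α = β})
    (B : Finset ι) (hB : flat (rf e L) B ≠ ⊤) (hα : α ∉ B) : rf e L α ∉ flat (rf e L) B := by
  classical
  have : Nonempty ι := ⟨α⟩
  intro hmem
  -- an independent subset
  obtain ⟨s, hs1, hs2, hs3⟩ := exists_linearIndependent K ((rf e L) '' (B : Set ι))
  -- choose preimages
  have hfin : s.Finite := (Set.Finite.image _ B.finite_toSet).subset hs1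
  choose! g hg1 hg2 using fun v (hv : v ∈ s) => hs1 hv
  set B' : Finset ι := hfin.toFinset.image g with hB'
  have hB'B : B' ⊆ B := by
    intro b hb
    obtain ⟨v, hv, rfl⟩ := Finset.mem_image.1 hb
    exact hg1 v ((Set.Finite.mem_toFinset _).1 hv)
  have hflat : flat (rf e L) B' = flat (rf e L) B := by
    unfold flat
    rw [← hs2]
    congr 1
    ext v
    constructor
    · rintro ⟨b, hb, rfl⟩
      obtain ⟨v, hv, rfl⟩ := Finset.mem_image.1 (Finset.mem_coe.1 hb)
      rw [Set.Finite.mem_toFinset] at hv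
      rw [hg2 v hv]
      exact hv
    · intro hv
      exact ⟨g v, Finset.mem_coe.2 (Finset.mem_image.2 ⟨v, (Set.Finite.mem_toFinset _).2 hv, rfl⟩),
        hg2 v hv⟩
  have hginj : ∀ v ∈ s, ∀ w ∈ s, g v = g w → v = w := by
    intro v hv w hw h
    rw [← hg2 v hv, ← hg2 w hw, h]
  have hcard : B'.card = finrank K (flat (rf e L) B) := by
    have h1 : B'.card = hfin.toFinset.card :=
      Finset.card_image_of_injOn fun v hv w hw h =>
        hginj v ((Set.Finite.mem_toFinset _).1 hv) w ((Set.Finite.mem_toFinset _).1 hw) h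
    have : Fintype s := hfin.fintype
    have h2 := finrank_span_set_eq_card hs3
    have h3 : flat (rf e L) B = Submodule.span K s := by
      unfold flat
      rw [hs2]
    rw [h3, h2, h1]
    congr 1
    ext v
    simp
  have hlt : finrank K (flat (rf e L) B) < N := by
    have := Submodule.finrank_lt hB
    rwa [finrank_fin_fun] at this
  have hαB' : α ∉ B' := fun h => hα (hB'B h)
  have h1 := hgen B' (by omega) hαB'
  set O : Finset ι := univ.filter fun β => ∃ σ, (∀ b ∈ B', π σ b = b) ∧ π σ α = β with hO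
  have hOc : Set.ncard {β | ∃ σ, (∀ b ∈ B', π σ b = b) ∧ π σ α = β} = O.card := by
    rw [← Set.ncard_coe_finset]
    congr 1
    ext β
    simp [hO]
  rw [hOc] at h1
  -- the orbit lies in the flat
  have hOmem : ∀ β ∈ O, rf e L β ∈ flat (rf e L) B' := by
    intro β hβ
    obtain ⟨σ, hσ, rfl⟩ := (Finset.mem_filter.1 hβ).2
    obtain ⟨c, hc, h⟩ := hπ σ α
    have h2 : rf e L (π σ α) = c • cj σ (rf e L α) := by
      show rs e (L (π σ α)) = c • cj σ (rs e (L α))
      rw [h, rs_smul, rs_cj]
    rw [h2]
    refine Submodule.smul_mem _ _ ?_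
    rw [← hflat] at hmem
    have h3 : flat (rf e L) B' ≤ act σ (flat (rf e L) B') := by
      rw [flat_le]
      intro b hb
      rw [mem_act]
      obtain ⟨d, hd, h4⟩ := hπ σ b
      rw [hσ b hb] at h4
      have h5 : rf e L b = d • cj σ (rf e L b) := by
        show rs e (L b) = d • cj σ (rs e (L b))
        conv_lhs => rw [h4]
        rw [rs_smul, rs_cj]
      have h6 : cj σ (rf e L b) = d⁻¹ • rf e L b := by
        conv_rhs => rw [h5, smul_smul, inv_mul_cancel₀ hd, one_smul]
      rw [h6]
      exact Submodule.smul_mem _ _ (Submodule.subset_span ⟨b, Finset.mem_coe.2 hb, rfl⟩)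
    exact h3 hmem
  have hdisj : Disjoint B' O := by
    rw [Finset.disjoint_left]
    intro b hb hbO
    obtain ⟨σ, hσ, h⟩ := (Finset.mem_filter.1 hbO).2
    apply hαB'
    have h2 : π σ α = π σ b := by rw [h, hσ b hb]
    rw [(π σ).injective h2]
    exact hb
  have h2 : (B' ∪ O).card ≤ nn (rf e L) (flat (rf e L) B') := by
    unfold nn
    refine Finset.card_le_card fun i hi => Finset.mem_filter.2 ⟨Finset.mem_univ _, ?_⟩
    rcases Finset.mem_union.1 hi with h | h
    · exact Submodule.subset_span ⟨i, Finset.mem_coe.2 h, rfl⟩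
    · exact hOmem i h
  rw [Finset.card_union_of_disjoint hdisj] at h2
  have h3 := gp_count e L hgp he (flat (rf e L) B') (by rw [hflat]; exact hB)
  have h4 : nn (rf e L) (flat (rf e L) B') = nn (fun i => rs e (L i)) (flat (rf e L) B') := rfl
  rw [hflat] at h2 h3 h4
  omega

/-- the count for a family which is generic outside of a subfamily -/
theorem count_gen (Rs : Finset ι) (M : ι → Fin N → K)
    (hcol : ∀ B : Finset ι, flat M B ≠ ⊤ → ∀ α, α ∉ B → α ∉ Rs → M α ∉ flat M B)
    (W : Submodule K (Fin N → K)) (hW : W ≠ ⊤) :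
    nn M W ≤ finrank K W + ex (fun i : Rs => M i) W := by
  classical
  set A : Finset ι := univ.filter fun i => M i ∈ W with hA
  have hflatA : ∀ B ⊆ A, flat M B ≤ W := by
    intro B hB
    rw [flat_le]
    intro i hi
    exact (Finset.mem_filter.1 (hB hi)).2
  have key : ∀ A'' : Finset ι, A'' ⊆ A \ Rs →
      A''.card + finrank K (flat M (A ∩ Rs)) ≤ finrank K (flat M ((A ∩ Rs) ∪ A'')) := by
    intro A''
    induction A'' using Finset.induction_on with
    | empty =>
      intro _
      rw [Finset.union_empty, Finset.card_empty, zero_add]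
    | insert α B hαB ih =>
      intro hsub
      have hα := Finset.mem_sdiff.1 (hsub (Finset.mem_insert_self α B))
      have hBs : B ⊆ A \ Rs := fun b hb => hsub (Finset.mem_insert_of_mem hb)
      have h1 := ih hBs
      rw [Finset.card_insert_of_notMem hαB]
      have hsubA : (A ∩ Rs) ∪ B ⊆ A := by
        intro b hb
        rcases Finset.mem_union.1 hb with h | h
        · exact (Finset.mem_inter.1 h).1
        · exact (Finset.mem_sdiff.1 (hBs h)).1
      have h2 : flat M ((A ∩ Rs) ∪ B) ≠ ⊤ := fun h => hW (top_le_iff.1 (h ▸ hflatA _ hsubA))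
      have h3 := hcol _ h2 α (by
        intro h
        rcases Finset.mem_union.1 h with h | h
        · exact hα.2 (Finset.mem_inter.1 h).2
        · exact hαB h) hα.2
      have h4 : flat M ((A ∩ Rs) ∪ B) < flat M ((A ∩ Rs) ∪ insert α B) := by
        refine lt_of_le_of_ne (Pool.Agent.R405.flat_mono M
          (Finset.union_subset_union_right (Finset.subset_insert α B))) fun h => h3 ?_
        rw [h]
        exact Submodule.subset_span ⟨α, Finset.mem_coe.2 (Finset.mem_union_right _
          (Finset.mem_insert_self α B)), rfl⟩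
      have h5 := Submodule.finrank_lt_finrank_of_lt h4
      omega
  have h1 := key (A \ Rs) le_rfl
  have h2 : (A ∩ Rs) ∪ (A \ Rs) = A := by
    ext i
    simp only [Finset.mem_union, Finset.mem_inter, Finset.mem_sdiff]
    tauto
  rw [h2] at h1
  have h3 := Submodule.finrank_mono (hflatA A le_rfl)
  have h4 : (A ∩ Rs).card + (A \ Rs).card = A.card := Finset.card_inter_add_card_sdiff A Rs
  -- the excess of the subfamily
  set A' : Finset Rs := univ.filter fun i : Rs => (i : ι) ∈ A with hA'
  have h5 : A'.card = (A ∩ Rs).card := by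
    refine Finset.card_bij (fun i _ => (i : ι)) (fun i hi => ?_) (fun i _ j _ h => Subtype.ext h)
      (fun b hb => ?_)
    · exact Finset.mem_inter.2 ⟨(Finset.mem_filter.1 hi).2, i.2⟩
    · obtain ⟨hb1, hb2⟩ := Finset.mem_inter.1 hb
      exact ⟨⟨b, hb2⟩, Finset.mem_filter.2 ⟨Finset.mem_univ _, hb1⟩, rfl⟩
  have h6 : flat (fun i : Rs => M i) A' = flat M (A ∩ Rs) := by
    unfold flat
    congr 1
    ext v
    constructor
    · rintro ⟨i, hi, rfl⟩
      exact ⟨i, Finset.mem_coe.2 (Finset.mem_inter.2
        ⟨(Finset.mem_filter.1 (Finset.mem_coe.1 hi)).2, i.2⟩), rfl⟩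
    · rintro ⟨b, hb, rfl⟩
      obtain ⟨hb1, hb2⟩ := Finset.mem_inter.1 (Finset.mem_coe.1 hb)
      exact ⟨⟨b, hb2⟩, Finset.mem_coe.2 (Finset.mem_filter.2 ⟨Finset.mem_univ _, hb1⟩), rfl⟩
  have h7 : flat (fun i : Rs => M i) A' ≤ W := by
    rw [h6]
    exact hflatA _ Finset.inter_subset_left
  have h8 := le_ex (fun i : Rs => M i) h7
  rw [h5, h6] at h8
  have h9 : nn M W = A.card := by
    unfold nn
    rw [hA]
  omega

end restrict

end Pool.Agent.H13.WS
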