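import Mathlib
import Pool.Agent.H13.WS.Gen

/-!
The estimate at all rational points, for forms which are generic for the Galois group.
-/

set_option autoImplicit false
set_option linter.unusedSectionVars false

open Finset Module

namespace Pool.Agent.H13.WS

open NumberField IsDedekindDomain Height
open Pool.Agent.R405 (exv exs exs_bot finrank_exs exs_inf flat dot dot_add dot_smul dot_sum dot_exv
  Good exv_ne exv_li exv_sum exv_smul rect_bound projH)
open Pool.Agent.W180.OP (Pl av wt nrm le_nrm nrm_pos nrm_nonneg exists_nrm wt_nonneg)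

variable {k K : Type} [Field k] [NumberField k] [Field K] [NumberField K] [Algebra k K]

/-- the exceptional hyperplane of a subspace -/
theorem exists_Tz {N n0 : ℕ} (e : Fin N → Fin n0 → k)
    (z : Fin N → k) (hz : z ≠ 0) :
    ∃ T' : Submodule k (Fin n0 → k), finrank k T' < N ∧
      ∀ c : Fin N → k, ∑ j, z j * c j = 0 → (∑ l, c l • e l) ∈ T' := by
  classical
  let φ : (Fin N → k) →ₗ[k] k := Fintype.linearCombination k z
  have hφ : ∀ c, φ c = ∑ j, z j * c j := by
    intro c
    simp only [φ, Fintype.linearCombination_apply, smul_eq_mul]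
    exact Finset.sum_congr rfl fun j _ => mul_comm _ _
  let E : (Fin N → k) →ₗ[k] (Fin n0 → k) := Fintype.linearCombination k e
  refine ⟨(LinearMap.ker φ).map E, ?_, fun c hc => ?_⟩
  · refine lt_of_le_of_lt (Submodule.finrank_map_le E _) ?_
    have h1 : LinearMap.ker φ ≠ ⊤ := by
      intro h
      apply hz
      funext j
      have h2 : (Pi.single j 1 : Fin N → k) ∈ LinearMap.ker φ := by rw [h]; trivial
      rw [LinearMap.mem_ker, hφ, Finset.sum_eq_single j] at h2
      · simpa using h2
      · intro b _ hb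
        rw [Pi.single_eq_of_ne hb, mul_zero]
      · intro h
        exact absurd (Finset.mem_univ _) h
    have := Submodule.finrank_lt h1
    rwa [finrank_fin_fun] at this
  · refine ⟨c, ?_, Fintype.linearCombination_apply k e c⟩
    rw [SetLike.mem_coe, LinearMap.mem_ker, hφ, hc]

/-- the estimate at all points of a subspace, from certificates for all subspaces -/
theorem treeC [IsGalois ℚ K] (hi : ∃ z : K, z ^ 2 = -1) {n0 : ℕ}
    {ι : Type} [Fintype ι] [DecidableEq ι] [Nonempty ι] (L : ι → Fin n0 → K) (c0 : ℝ) (hc0 : 0 < c0)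
    (hcertif : ∀ (N : ℕ) (e : Fin N → Fin n0 → k), 1 ≤ N → LinearIndependent k e →
      (∀ i, rf e L i ≠ 0) →
      ∃ (m : ℕ) (V : Fin m → Submodule k (Fin N → k)) (y : Fin m → ℝ), (∀ i, 0 ≤ y i) ∧
      (∀ W : Submodule K (Fin N → K), W ≠ ⊤ → (nn (rf e L) W : ℝ) ≤
        ∑ i, y i * finrank K (W ⊓ exs K (V i) : Submodule K (Fin N → K))) ∧
      ∑ i, y i * finrank k (V i) ≤ c0) (d : ℕ) :
    ∀ T : Submodule k (Fin n0 → k), finrank k T ≤ d →
      ∀ (S : Finset (Pl k)) (f : Pl k → AbsoluteValue K ℝ), (∀ v ∈ S, Good v (f v)) →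
      ∀ ε : ℝ, 0 < ε → ∃ C : ℝ, 0 ≤ C ∧ ∀ x ∈ T, (∀ i, dot (L i) (exv K x) ≠ 0) →
        ∑ v ∈ S, wt v * ∑ i, (Real.log (nrm (av v) x) -
          Real.log (f v (dot (L i) (exv K x)))) ≤ (c0 + ε) * logHeight x + C := by
  classical
  obtain ⟨i0⟩ := (inferInstance : Nonempty ι)
  have hx0 : ∀ x : Fin n0 → k, (∀ i, dot (L i) (exv K x) ≠ 0) → x ≠ 0 := by
    intro x hx h
    apply hx i0
    rw [h]
    simp [dot, exv]
  induction d with
  | zero =>
    intro T hT S f hf ε hε
    refine ⟨0, le_rfl, fun x hx hLx => ?_⟩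
    have hT0 : T = ⊥ := Submodule.finrank_eq_zero.1 (by omega)
    rw [hT0, Submodule.mem_bot] at hx
    exact absurd hx (hx0 x hLx)
  | succ d ih =>
    intro T hT S f hf ε hε
    by_cases hT0 : finrank k T = 0
    · exact ih T (by omega) S f hf ε hε
    set N := finrank k T with hN
    have hN1 : 1 ≤ N := by omega
    let b := Module.finBasisOfFinrankEq k T hN.symm
    set e : Fin N → Fin n0 → k := fun l => (b l : Fin n0 → k) with he
    have hli : LinearIndependent k e := b.linearIndependent.map' T.subtype (Submodule.ker_subtype T)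
    have hrep : ∀ x ∈ T, ∃ c : Fin N → k, x = ∑ l, c l • e l := by
      intro x hx
      refine ⟨fun l => b.repr ⟨x, hx⟩ l, ?_⟩
      have h4 := congrArg T.subtype (b.sum_repr ⟨x, hx⟩)
      rw [map_sum] at h4
      simp only [map_smul, Submodule.subtype_apply] at h4
      exact h4.symm
    by_cases hM0 : ∃ i, rf e L i = 0
    · obtain ⟨i, hi0⟩ := hM0
      refine ⟨0, le_rfl, fun x hx hLx => ?_⟩
      exfalso
      obtain ⟨c, rfl⟩ := hrep x hx
      apply hLx i
      rw [← dot_rs]
      show dot (rf e L i) (exv K c) = 0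
      rw [hi0]
      simp [dot]
    push Not at hM0
    obtain ⟨Z, hZ0, hpart⟩ := partC (k := k) hi hN1 (rf e L) hM0 c0 hc0 (hcertif N e hN1 hli hM0)
    -- the exceptional subspaces
    choose! Tz hTz1 hTz2 using fun z (hz : z ≠ 0) => exists_Tz e z hz
    obtain ⟨C0, hC0, hC0'⟩ := hpart S f hf ε hε
    have hCz : ∀ z : Fin N → k, ∃ C : ℝ, 0 ≤ C ∧ (z ∈ Z → ∀ x ∈ Tz z,
        (∀ i, dot (L i) (exv K x) ≠ 0) →
        ∑ v ∈ S, wt v * ∑ i, (Real.log (nrm (av v) x) -
          Real.log (f v (dot (L i) (exv K x)))) ≤ (c0 + ε) * logHeight x + C) := by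
      intro z
      by_cases hz : z ∈ Z
      · obtain ⟨C, hC, h⟩ := ih (Tz z) (by have := hTz1 z (hZ0 z hz); omega) S f hf ε hε
        exact ⟨C, hC, fun _ => h⟩
      · exact ⟨0, le_rfl, fun h => absurd h hz⟩
    choose Cz hCz0 hCz using hCz
    -- comparison of coordinates
    obtain ⟨g, hg⟩ : ∃ g : (Fin n0 → k) →ₗ[k] (Fin N → k),
        g.comp (Fintype.linearCombination k e) = LinearMap.id := by
      refine LinearMap.exists_leftInverse_of_injective _ ?_
      rw [eq_bot_iff]
      intro c hc
      rw [LinearMap.mem_ker, Fintype.linearCombination_apply] at hc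
      exact (Submodule.mem_bot k).2 (funext fun i => Fintype.linearIndependent_iff.1 hli c hc i)
    have hgc : ∀ c : Fin N → k, g (∑ l, c l • e l) = c := by
      intro c
      have := congrArg (fun h : (Fin N → k) →ₗ[k] (Fin N → k) => h c) hg
      simp only [LinearMap.comp_apply, Fintype.linearCombination_apply, LinearMap.id_apply] at this
      exact this
    set P : Fin N → Fin n0 → k := fun i j => g (Pi.single j 1) i with hP
    have hPx : ∀ x : Fin n0 → k, (fun i => ∑ j, P i j * x j) = g x := by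
      intro x
      funext i
      have h1 : x = ∑ j, x j • (Pi.single j 1 : Fin n0 → k) := by
        funext l
        rw [Finset.sum_apply, Finset.sum_eq_single l]
        · simp
        · intro b _ hb
          simp [Pi.single_eq_of_ne (Ne.symm hb)]
        · intro h
          exact absurd (Finset.mem_univ _) h
      conv_rhs => rw [h1, map_sum, Finset.sum_apply]
      refine Finset.sum_congr rfl fun j _ => ?_
      rw [map_smul, Pi.smul_apply, smul_eq_mul, mul_comm]
    obtain ⟨C1, hC1, hproj⟩ := projH P (∅ : Finset (Pl k))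
    choose κ hκ1 hκ using fun v : Pl k => rect_bound (av v) (fun (j : Fin n0) (l : Fin N) => e l j)
    set C2 : ℝ := ∑ v ∈ S, wt v * (Fintype.card ι * Real.log (κ v)) with hC2
    have hC20 : 0 ≤ C2 := Finset.sum_nonneg fun v _ => mul_nonneg (wt_nonneg v)
      (mul_nonneg (Nat.cast_nonneg _) (Real.log_nonneg (hκ1 v)))
    have hsumz : 0 ≤ ∑ z ∈ Z, Cz z := Finset.sum_nonneg fun z _ => hCz0 z
    refine ⟨C0 + (c0 + ε) * C1 + C2 + ∑ z ∈ Z, Cz z, by positivity, fun x hx hLx => ?_⟩
    have hx0' := hx0 x hLx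
    have hh := logHeight_nonneg x
    by_cases hzc : ∀ z ∈ Z, ∑ j, z j * g x j ≠ 0
    · obtain ⟨c, rfl⟩ := hrep x hx
      set x := ∑ l, c l • e l with hxdef
      rw [hgc] at hzc
      have h1 := hC0' c hzc (fun i => by
        show dot (rs e (L i)) (exv K c) ≠ 0
        rw [dot_rs]
        exact hLx i)
      have hc0 : c ≠ 0 := by
        intro h
        apply hx0'
        rw [hxdef, h]
        simp
      have h2 := hproj x (by rw [hPx, hgc]; exact hc0)
      rw [hPx, hgc, Finset.sum_empty, add_zero] at h2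
      have h3 : ∀ v ∈ S, wt v * ∑ i, (Real.log (nrm (av v) x) -
          Real.log (f v (dot (L i) (exv K x)))) ≤ wt v * ∑ i, (Real.log (nrm (av v) c) -
          Real.log (f v (dot (rf e L i) (exv K c)))) + wt v * (Fintype.card ι * Real.log (κ v)) := by
        intro v _
        rw [← mul_add]
        refine mul_le_mul_of_nonneg_left ?_ (wt_nonneg v)
        have h4 : Real.log (nrm (av v) x) ≤ Real.log (nrm (av v) c) + Real.log (κ v) := by
          have h5 := hκ v c
          have h6 : (fun j => ∑ l, e l j * c l) = x := by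
            funext j
            rw [hxdef, Finset.sum_apply]
            exact Finset.sum_congr rfl fun l _ => by rw [Pi.smul_apply, smul_eq_mul, mul_comm]
          rw [h6] at h5
          have h7 := Real.log_le_log (nrm_pos (av v) hx0') h5
          have h8 : (0 : ℝ) < κ v := by have := hκ1 v; linarith
          rw [Real.log_mul h8.ne' (nrm_pos (av v) hc0).ne'] at h7
          linarith
        have h9 : (Fintype.card ι : ℝ) * Real.log (κ v) = ∑ _i : ι, Real.log (κ v) := by
          rw [Finset.sum_const, Finset.card_univ, nsmul_eq_mul]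
        rw [h9, ← Finset.sum_add_distrib]
        refine Finset.sum_le_sum fun i _ => ?_
        have h10 : dot (rf e L i) (exv K c) = dot (L i) (exv K x) := dot_rs e (L i) c
        rw [h10]
        linarith
      have h4 := Finset.sum_le_sum h3
      rw [Finset.sum_add_distrib] at h4
      have h6 : (c0 + ε) * logHeight c ≤ (c0 + ε) * (logHeight x + C1) :=
        mul_le_mul_of_nonneg_left h2 (by positivity)
      linarith
    · push Not at hzc
      obtain ⟨z, hz, hzx⟩ := hzc
      have hxz : x ∈ Tz z := by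
        obtain ⟨c, rfl⟩ := hrep x hx
        rw [hgc] at hzx
        exact hTz2 z (hZ0 z hz) c hzx
      have h1 := hCz z hz x hxz hLx
      have h2 : Cz z ≤ ∑ z ∈ Z, Cz z := Finset.single_le_sum (f := Cz) (fun z _ => hCz0 z) hz
      have h3 : 0 ≤ (c0 + ε) * C1 := by positivity
      linarith

/-- **Forms in general position, generic for the Galois group outside of a subfamily of `s` forms.**
The exponent `max n0 s` holds at all rational points. -/
theorem generic [IsGalois ℚ K] (hi : ∃ z : K, z ^ 2 = -1) {n0 : ℕ}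
    {ι : Type} [Fintype ι] [DecidableEq ι] [Nonempty ι] (L : ι → Fin n0 → K)
    (hgp : ∀ B : Finset ι, B.card ≤ n0 → LinearIndependent K fun i : B => L i)
    (π : (K ≃ₐ[k] K) → Equiv.Perm ι)
    (hπ : ∀ σ i, ∃ c : K, c ≠ 0 ∧ L (π σ i) = c • cj σ (L i))
    (Rs : Finset ι) (hRs : ∀ σ, ∀ i, i ∈ Rs ↔ π σ i ∈ Rs)
    (hgen : ∀ α, α ∉ Rs → ∀ B : Finset ι, B.card < n0 → α ∉ B →
      n0 ≤ B.card + Set.ncard {β | ∃ σ, (∀ b ∈ B, π σ b = b) ∧ π σ α = β})
    (S : Finset (Pl k)) (f : Pl k → AbsoluteValue K ℝ) (hf : ∀ v ∈ S, Good v (f v))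
    (ε : ℝ) (hε : 0 < ε) : ∃ C : ℝ, 0 ≤ C ∧ ∀ x : Fin n0 → k, (∀ i, dot (L i) (exv K x) ≠ 0) →
        ∑ v ∈ S, wt v * ∑ i, (Real.log (nrm (av v) x) -
          Real.log (f v (dot (L i) (exv K x)))) ≤
          (((max n0 Rs.card : ℕ) : ℝ) + ε) * logHeight x + C := by
  classical
  rcases Nat.eq_zero_or_pos n0 with h0 | hn0
  · subst h0
    refine ⟨0, le_rfl, fun x hx => ?_⟩
    obtain ⟨i0⟩ := (inferInstance : Nonempty ι)
    exact absurd (by simp [dot]) (hx i0)
  have : FiniteDimensional k K := Module.Finite.of_restrictScalars_finite ℚ k K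
  have : IsGalois k K := IsGalois.tower_top_of_isGalois ℚ k K
  have hc0 : (0 : ℝ) < ((max n0 Rs.card : ℕ) : ℝ) := by
    have : 0 < max n0 Rs.card := lt_of_lt_of_le hn0 (le_max_left _ _)
    exact_mod_cast this
  obtain ⟨C, hC, h⟩ := treeC (k := k) hi L ((max n0 Rs.card : ℕ) : ℝ) hc0 (fun N e hN1 hli hM0 => by
    have hN : N ≤ n0 := by
      have := hli.fintype_card_le_finrank
      rwa [Fintype.card_fin, finrank_fin_fun] at this
    have hcol : ∀ B : Finset ι, flat (rf e L) B ≠ ⊤ → ∀ α, α ∉ B → α ∉ Rs →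
        rf e L α ∉ flat (rf e L) B := by
      intro B hB α hα hαR
      exact coloop e L hgp hli hN π hπ α (hgen α hαR) B hB hα
    obtain ⟨m, V, y, hy, hV, hsum⟩ := cert_excess (k := k) (rf e L) (fun i : Rs => rf e L i)
      (fun i => hM0 i) (fun σ => by
        refine ⟨(π σ).subtypePerm (fun i => (hRs σ i).symm), fun i => ?_⟩
        obtain ⟨c, hc, h⟩ := hπ σ i
        refine ⟨c, hc, ?_⟩
        show rs e (L (π σ i)) = c • cj σ (rs e (L i))
        rw [h, rs_smul, rs_cj])
      (fun W hW => count_gen Rs (rf e L) hcol W hW)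
    refine ⟨m, V, y, hy, hV, hsum.trans ?_⟩
    obtain ⟨A, -, hA⟩ := exists_ex (fun i : Rs => rf e L i) ⊤
    have h1 : flat (fun i : Rs => rf e L i) A = flat (rf e L) (A.map (Function.Embedding.subtype _)) := by
      unfold flat
      congr 1
      ext v
      simp only [Set.mem_image, Finset.mem_coe, Finset.mem_map, Function.Embedding.subtype_apply]
      constructor
      · rintro ⟨i, hi, rfl⟩
        exact ⟨i, ⟨i, hi, rfl⟩, rfl⟩
      · rintro ⟨_, ⟨i, hi, rfl⟩, rfl⟩
        exact ⟨i, hi, rfl⟩
    have h2 := rank_small e L hgp hli hN (A.map (Function.Embedding.subtype _))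
    rw [← h1, Finset.card_map] at h2
    have h3 : A.card ≤ Rs.card := by
      have := Finset.card_le_univ A
      rwa [Fintype.card_coe] at this
    have h4 : N + ex (fun i : Rs => rf e L i) ⊤ ≤ max n0 Rs.card := by
      rw [hA]
      omega
    exact_mod_cast h4) n0 ⊤ (by rw [finrank_top, finrank_fin_fun]) S f hf ε hε
  exact ⟨C, hC, fun x hx => h x trivial hx⟩

end Pool.Agent.H13.WS
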