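import Mathlib
import Pool.Agent.H13.WS.Generic

/-!
The family of the evaluation forms at the points of a divisor on the projective line over `ℚ`.
-/

set_option autoImplicit false
set_option linter.unusedSectionVars false

open Finset Module Polynomial

namespace Pool.Agent.H13.WS

/-- evaluations at distinct points are independent -/
theorem ev_indep {F κ : Type} [Field F] [Fintype κ] (r : ℕ) (hκ : Fintype.card κ ≤ r + 1)
    (v w : κ → F) (hd : ∀ i j, i ≠ j → v j * w i - v i * w j ≠ 0) (hne : ∀ i, v i ≠ 0 ∨ w i ≠ 0) :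
    LinearIndependent F (fun (i : κ) (j : Fin (r + 1)) => v i ^ j.val * w i ^ (r - j.val)) := by
  classical
  set m := Fintype.card κ with hm
  let e : Fin m ≃ κ := (Fintype.equivFin κ).symm
  rw [Fintype.linearIndependent_iff]
  intro c hc
  set A := Matrix.projVandermonde (fun i => v (e i)) (fun i => w (e i)) with hA
  have hdet : A.det ≠ 0 := by
    rw [hA, Matrix.det_projVandermonde]
    refine Finset.prod_ne_zero_iff.2 fun i _ => Finset.prod_ne_zero_iff.2 fun j hj => ?_
    have hij : i ≠ j := (Finset.mem_Ioi.1 hj).ne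
    exact hd (e i) (e j) fun h => hij (e.injective h)
  -- windows of length `m`
  have key : ∀ s, s + m ≤ r + 1 → ∀ i, c i * (v i ^ s * w i ^ (r + 1 - m - s)) = 0 := by
    intro s hs
    set d : Fin m → F := fun i => c (e i) * (v (e i) ^ s * w (e i) ^ (r + 1 - m - s)) with hd'
    have h1 : Matrix.vecMul d A = 0 := by
      funext j
      have hj := j.2
      have h2 := congrFun hc ⟨s + j.val, by omega⟩
      rw [Finset.sum_apply, Pi.zero_apply] at h2
      rw [Matrix.vecMul, dotProduct, Pi.zero_apply, ← h2]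
      rw [← Equiv.sum_comp e]
      refine Finset.sum_congr rfl fun i _ => ?_
      simp only [hd', hA, Matrix.projVandermonde_apply, Pi.smul_apply, smul_eq_mul]
      have h3 : (j.rev : ℕ) = m - 1 - j.val := by
        rw [Fin.val_rev]
        omega
      have h4 : r - (s + j.val) = (r + 1 - m - s) + (m - 1 - j.val) := by omega
      rw [h3, h4, pow_add, pow_add]
      ring
    have h2 : d = 0 := Matrix.eq_zero_of_vecMul_eq_zero hdet h1
    intro i
    have := congrFun h2 (e.symm i)
    simp only [hd', Equiv.apply_symm_apply, Pi.zero_apply] at this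
    exact this
  intro i
  rcases hne i with h | h
  · have h1 := key (r + 1 - m) (by omega) i
    rw [Nat.sub_self, pow_zero, mul_one] at h1
    rcases mul_eq_zero.1 h1 with h2 | h2
    · exact h2
    · exact absurd h2 (pow_ne_zero _ h)
  · have h1 := key 0 (by omega) i
    rw [pow_zero, one_mul] at h1
    rcases mul_eq_zero.1 h1 with h2 | h2
    · exact h2
    · exact absurd h2 (pow_ne_zero _ h)

/-- the complex roots -/
noncomputable def rts (G : ℤ[X]) : Finset ℂ := (G.map (Int.castRingHom ℂ)).roots.toFinset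

theorem mem_rts {G : ℤ[X]} (hG : G ≠ 0) {α : ℂ} : α ∈ rts G ↔ aeval α G = 0 := by
  rw [rts, Multiset.mem_toFinset, mem_roots (by
    rw [Ne, Polynomial.map_eq_zero_iff (RingHom.injective_int _)]; exact hG), IsRoot.def, eval_map,
    aeval_def]
  rfl

theorem sepC {G : ℤ[X]} (hsep : Squarefree (G.map (Int.castRingHom ℚ))) :
    (G.map (Int.castRingHom ℂ)).Separable := by
  have h0 : (G.map (Int.castRingHom ℚ)).Separable := PerfectField.separable_iff_squarefree.2 hsep
  have := h0.map (f := algebraMap ℚ ℂ)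
  have h9 : (algebraMap ℚ ℂ).comp (Int.castRingHom ℚ) = Int.castRingHom ℂ := RingHom.ext_int _ _
  rw [Polynomial.map_map, h9] at this
  exact this

theorem card_rts {G : ℤ[X]} (hsep : (G.map (Int.castRingHom ℂ)).Separable) :
    (rts G).card = G.natDegree := by
  have hnodup : (G.map (Int.castRingHom ℂ)).roots.Nodup := nodup_roots hsep
  rw [rts, Multiset.toFinset_card_of_nodup hnodup,
    ← (IsAlgClosed.splits (G.map (Int.castRingHom ℂ))).natDegree_eq_card_roots,
    natDegree_map_eq_of_injective (RingHom.injective_int _)]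

/-- the points of the divisor -/
abbrev Ix (G : ℤ[X]) (q : ℕ) : Type := {α : ℂ // α ∈ rts G} ⊕ Fin (q - G.natDegree)

section fam

variable {G : ℤ[X]} {q : ℕ} {M : IntermediateField ℚ ℂ} (hM : ∀ α ∈ rts G, α ∈ M)

/-- first coordinates -/
noncomputable def pv : Ix G q → M := Sum.elim (fun α => ⟨α.1, hM α.1 α.2⟩) fun _ => 1

/-- second coordinates -/
noncomputable def pw (M : IntermediateField ℚ ℂ) : Ix G q → M := Sum.elim (fun _ => 1) fun _ => 0

/-- the evaluation forms in degree `r` -/
noncomputable def ev (r : ℕ) (i : Ix G q) : Fin (r + 1) → M :=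
  fun j => pv hM i ^ j.val * pw M i ^ (r - j.val)

theorem ev_gp (hqG : q ≤ G.natDegree + 1) (r : ℕ) (B : Finset (Ix G q)) (hB : B.card ≤ r + 1) :
    LinearIndependent M fun i : B => ev hM r (i : Ix G q) := by
  refine ev_indep r (by rw [Fintype.card_coe]; exact hB) (fun i : B => pv hM i.1)
    (fun i : B => pw M i.1) ?_ ?_
  · rintro ⟨i, hi⟩ ⟨j, hj⟩ hij
    have hij' : i ≠ j := fun h => hij (Subtype.ext h)
    rcases i with i | i <;> rcases j with j | j
    · simp only [pv, pw, Sum.elim_inl, mul_one]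
      rw [sub_ne_zero]
      intro h
      apply hij'
      have h2 : j.1 = i.1 := congrArg (fun z : M => (z : ℂ)) h
      rw [Subtype.ext h2]
    · simp [pv, pw]
    · simp [pv, pw]
    · exfalso
      apply hij'
      congr 1
      ext
      omega
  · rintro ⟨i, hi⟩
    rcases i with i | i
    · right; simp [pw]
    · left; simp [pv]

/-- the action of the Galois group on the roots -/
theorem act_root (hG : G ≠ 0) (σ : M ≃ₐ[ℚ] M) {α : ℂ} (hα : α ∈ rts G) :
    ((σ ⟨α, hM α hα⟩ : M) : ℂ) ∈ rts G := by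
  rw [mem_rts hG] at hα ⊢
  have h1 : aeval (⟨α, hM α ((mem_rts hG).2 hα)⟩ : M) G = 0 := by
    apply Subtype.ext
    have := (Polynomial.aeval_algebraMap_apply ℂ (⟨α, hM α ((mem_rts hG).2 hα)⟩ : M) G)
    exact this.symm.trans hα
  have h2 : aeval (σ (⟨α, hM α ((mem_rts hG).2 hα)⟩ : M)) G = 0 := by
    have h3 := Polynomial.aeval_algHom_apply (σ.toAlgHom.restrictScalars ℤ)
      (⟨α, hM α ((mem_rts hG).2 hα)⟩ : M) G
    rw [h1, map_zero] at h3
    exact h3
  have h4 := Polynomial.aeval_algebraMap_apply ℂ (σ (⟨α, hM α ((mem_rts hG).2 hα)⟩ : M)) G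
  rw [h2, map_zero] at h4
  exact h4

/-- the permutation of the points -/
noncomputable def pm (hG : G ≠ 0) (σ : M ≃ₐ[ℚ] M) : Equiv.Perm (Ix G q) :=
  Equiv.sumCongr
    { toFun := fun α => ⟨_, act_root hM hG σ α.2⟩
      invFun := fun α => ⟨_, act_root hM hG σ.symm α.2⟩
      left_inv := fun α => by
        apply Subtype.ext
        simp
      right_inv := fun α => by
        apply Subtype.ext
        simp }
    (Equiv.refl _)

theorem ev_pm (hG : G ≠ 0) (r : ℕ) (σ : M ≃ₐ[ℚ] M) (i : Ix G q) :
    ev hM r (pm hM hG σ i) = cj σ (ev hM r i) := by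
  funext j
  show pv hM (pm hM hG σ i) ^ j.val * pw M (pm hM hG σ i) ^ (r - j.val) =
    σ (pv hM i ^ j.val * pw M i ^ (r - j.val))
  rw [map_mul, map_pow, map_pow]
  rcases i with i | i
  · simp [pm, pv, pw]
  · simp [pm, pv, pw]

/-- the size of a Galois orbit -/
theorem orbit_card [FiniteDimensional ℚ M] [IsGalois ℚ M] (hG : G ≠ 0)
    (B : Finset (Ix G q)) (α : {α : ℂ // α ∈ rts G}) (Bc : Finset ℂ)
    (hBc : Bc = (univ.filter fun β : {α : ℂ // α ∈ rts G} => Sum.inl β ∈ B).image fun β => β.1) :
    (minpoly (IntermediateField.adjoin ℚ (Bc : Set ℂ)) α.1).natDegree ≤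
      Set.ncard {β : Ix G q | ∃ σ, (∀ b ∈ B, pm hM hG σ b = b) ∧ pm hM hG σ (Sum.inl α) = β} := by
  classical
  set F := IntermediateField.adjoin ℚ (Bc : Set ℂ) with hF
  have hBcM : ∀ b ∈ Bc, b ∈ M := by
    intro b hb
    rw [hBc] at hb
    obtain ⟨β, -, rfl⟩ := Finset.mem_image.1 hb
    exact hM _ β.2
  have hFM : F ≤ M := IntermediateField.adjoin_le_iff.2 fun b hb => hBcM b (Finset.mem_coe.1 hb)
  let _ : Algebra F M := (IntermediateField.inclusion hFM).toAlgebra
  have : IsScalarTower ℚ F M := IsScalarTower.of_algebraMap_eq fun x => rfl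
  have : IsScalarTower F M ℂ := IsScalarTower.of_algebraMap_eq fun x => rfl
  have : IsGalois F M := IsGalois.tower_top_of_isGalois ℚ F M
  have : FiniteDimensional F M := Module.Finite.of_restrictScalars_finite ℚ F M
  set α' : M := ⟨α.1, hM α.1 α.2⟩ with hα'
  have hmin : minpoly F α.1 = minpoly F α' := by
    have := minpoly.algebraMap_eq (A := F) (B := M) (B' := ℂ) (algebraMap M ℂ).injective α'
    exact this
  rw [hmin]
  have hsep : (minpoly F α').Separable := (IsGalois.separable F (x := α'))
  have hsplit : ((minpoly F α').map (algebraMap F M)).Splits := IsGalois.splits F α'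
  rw [← card_rootSet_eq_natDegree hsep hsplit]
  set g : (minpoly F α').rootSet M → Ix G q := fun β =>
    if h : ((β.1 : M) : ℂ) ∈ rts G then Sum.inl ⟨_, h⟩ else Sum.inl α with hg
  have hroot : ∀ β : (minpoly F α').rootSet M, ∃ σ : M ≃ₐ[F] M, σ α' = β.1 := by
    intro β
    have h1 : aeval β.1 (minpoly F α') = 0 := (mem_rootSet.1 β.2).2
    have h2 : minpoly F β.1 = minpoly F α' := by
      have h3 := minpoly.dvd F β.1 h1
      have h4 : Irreducible (minpoly F α') := minpoly.irreducible (Algebra.IsIntegral.isIntegral α')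
      exact (minpoly.eq_of_irreducible_of_monic h4 h1
        (minpoly.monic (Algebra.IsIntegral.isIntegral α'))).symm
    obtain ⟨σ, hσ⟩ := Normal.minpoly_eq_iff_mem_orbit M |>.1 h2
    exact ⟨σ, hσ⟩
  have hmem : ∀ β : (minpoly F α').rootSet M, ((β.1 : M) : ℂ) ∈ rts G := by
    intro β
    obtain ⟨σ, hσ⟩ := hroot β
    have := act_root hM hG (σ.restrictScalars ℚ) α.2
    rw [← hσ]
    exact this
  have hginj : Function.Injective g := by
    intro β γ h
    simp only [hg, hmem, dif_pos] at h
    have h1 := congrArg Subtype.val (Sum.inl.inj h)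
    exact Subtype.ext (Subtype.ext h1)
  have hsub : Set.range g ⊆
      {β : Ix G q | ∃ σ, (∀ b ∈ B, pm hM hG σ b = b) ∧ pm hM hG σ (Sum.inl α) = β} := by
    rintro _ ⟨β, rfl⟩
    obtain ⟨σ, hσ⟩ := hroot β
    refine ⟨σ.restrictScalars ℚ, fun b hb => ?_, ?_⟩
    · rcases b with b | b
      · have h1 : b.1 ∈ F := IntermediateField.subset_adjoin ℚ _ (by
          rw [hBc]
          exact Finset.mem_coe.2 (Finset.mem_image.2 ⟨b, Finset.mem_filter.2
            ⟨Finset.mem_univ _, hb⟩, rfl⟩))
        have h2 : σ (⟨b.1, hM b.1 b.2⟩ : M) = ⟨b.1, hM b.1 b.2⟩ := by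
          have h3 := σ.commutes ⟨b.1, h1⟩
          exact h3
        exact congrArg Sum.inl (Subtype.ext (congrArg (fun z : M => (z : ℂ)) h2))
      · rfl
    · show Sum.inl _ = g β
      simp only [hg, hmem, dif_pos]
      exact congrArg Sum.inl (Subtype.ext (congrArg (fun z : M => (z : ℂ)) hσ))
  calc Fintype.card ((minpoly F α').rootSet M) = (Set.range g).ncard := by
        rw [← Set.image_univ, Set.ncard_image_of_injective _ hginj, Set.ncard_univ,
          Nat.card_eq_fintype_card]
    _ ≤ _ := Set.ncard_le_ncard hsub (Set.toFinite _)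

end fam

end Pool.Agent.H13.WS
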