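import Mathlib
import Pool.Agent.H13.WS.Fam
import Pool.Graph.R_seed8.Y734.BR.Fin
import Pool.Graph.R_seed8.H990R4.VJ.R

/-!
The places of `ℚ` and the resultant.
-/

set_option autoImplicit false
set_option linter.unusedSectionVars false

open Finset Module Polynomial

namespace Pool.Agent.H13.WS

open NumberField IsDedekindDomain Height
open Pool.Agent.R405 (exv dot Good logHeight_sum nrm_finite)
open Pool.Agent.W180.OP (Pl av wt nrm le_nrm nrm_pos nrm_nonneg nrm_le exists_nrm wt_nonneg fv)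
open Pool.Agent.Y734.BR (Ab int_mem ab_nonempty exists_int prod_p mk_lt_one mk_eq_one)

theorem ab_unique {p : ℕ} (hp : p.Prime) {v w : HeightOneSpectrum (𝓞 ℚ)} (hv : v ∈ Ab ℚ p)
    (hw : w ∈ Ab ℚ p) : v = w := by
  have h : v.asIdeal = w.asIdeal := by
    ext x
    obtain ⟨m, rfl⟩ := exists_int x
    rw [int_mem hp hv, int_mem hp hw]
  exact HeightOneSpectrum.ext h

theorem fv_p {p : ℕ} (hp : p.Prime) {v : HeightOneSpectrum (𝓞 ℚ)} (hv : v ∈ Ab ℚ p) :
    fv v (p : ℚ) = (p : ℝ)⁻¹ := by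
  have hset : Ab ℚ p = {v} := by
    ext w
    constructor
    · intro hw
      exact ab_unique hp hw hv
    · rintro rfl
      exact hv
  have hfin : (Ab ℚ p).Finite := by rw [hset]; exact Set.finite_singleton v
  have h1 := prod_p (L := ℚ) hp hfin
  have h2 : hfin.toFinset = {v} := by
    ext w
    rw [Set.Finite.mem_toFinset, hset, Finset.mem_singleton]
    rfl
  rw [h2, Finset.prod_singleton, Module.finrank_self, pow_one] at h1
  exact h1

theorem fv_int {p : ℕ} (hp : p.Prime) {v : HeightOneSpectrum (𝓞 ℚ)} (hv : v ∈ Ab ℚ p) (m : ℤ)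
    (hm : m ≠ 0) : Real.log (fv v (m : ℚ)) = - ((padicValInt p m : ℝ) * Real.log p) := by
  have : Fact p.Prime := ⟨hp⟩
  obtain ⟨m', hm'⟩ := (padicValInt_dvd (p := p) m)
  have hnd : ¬ (p : ℤ) ∣ m' := by
    rintro ⟨c, rfl⟩
    have h1 : (p : ℤ) ^ (padicValInt p m + 1) ∣ m := ⟨c, by rw [pow_succ]; rw [mul_assoc]; exact hm'⟩
    rw [padicValInt_dvd_iff] at h1
    rcases h1 with h1 | h1
    · exact hm h1
    · omega
  have h1 : fv v (m' : ℚ) = 1 := by
    have h2 : (m' : 𝓞 ℚ) ∉ v.asIdeal := fun h => hnd ((int_mem hp hv m').1 h)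
    exact mk_eq_one.2 h2
  have h2 : (m : ℚ) = (p : ℚ) ^ padicValInt p m * (m' : ℚ) := by
    exact_mod_cast congrArg (Int.cast : ℤ → ℚ) hm'
  rw [h2, map_mul, map_pow, h1, fv_p hp hv, mul_one, Real.log_pow, Real.log_inv]
  ring

theorem fv_le_one (v : HeightOneSpectrum (𝓞 ℚ)) (m : ℤ) : fv v (m : ℚ) ≤ 1 := by
  have h := FinitePlace.norm_le_one ℚ v (m : 𝓞 ℚ)
  rw [map_intCast] at h
  exact h

/-- the coefficients of an integer polynomial -/
def cf (f : ℤ[X]) (r : ℕ) : Fin (r + 1) → ℚ := fun j => (f.coeff j.val : ℚ)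

theorem wt_inf : wt (Sum.inl Rat.infinitePlace : Pl ℚ) = 1 := by
  show ((Rat.infinitePlace.mult : ℕ) : ℝ) = 1
  rw [InfinitePlace.mult_isReal ⟨Rat.infinitePlace, Rat.isReal_infinitePlace⟩]
  simp

theorem av_inf (x : ℚ) : av (Sum.inl Rat.infinitePlace : Pl ℚ) x = |(x : ℝ)| :=
  (Rat.infinitePlace_apply Rat.infinitePlace x).trans (by simp)

theorem logHeight_cf (f : ℤ[X]) (r : ℕ) (hf : cf f r ≠ 0) :
    logHeight (cf f r) ≤ Real.log (nrm (av (Sum.inl Rat.infinitePlace : Pl ℚ)) (cf f r)) := by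
  rw [logHeight_sum (cf f r) hf (nrm_finite (cf f r) hf).toFinset (fun v hv => by
    by_contra h
    exact hv ((Set.Finite.mem_toFinset _).2 h))]
  have h1 : ∑ w : InfinitePlace ℚ, (w.mult : ℝ) * Real.log (nrm w.1 (cf f r)) =
      Real.log (nrm (av (Sum.inl Rat.infinitePlace : Pl ℚ)) (cf f r)) := by
    rw [Fintype.sum_subsingleton _ Rat.infinitePlace]
    have := wt_inf
    have h2 : ((Rat.infinitePlace.mult : ℕ) : ℝ) = 1 := this
    rw [h2, one_mul]
    rfl
  rw [h1]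
  have h2 : ∑ v ∈ (nrm_finite (cf f r) hf).toFinset,
      Real.log (nrm (Pool.Agent.W180.OP.fv v) (cf f r)) ≤ 0 := by
    refine Finset.sum_nonpos fun v _ => Real.log_nonpos (nrm_nonneg _ _) ?_
    exact nrm_le zero_le_one fun j => fv_le_one v _
  linarith

end Pool.Agent.H13.WS
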