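import Mathlib
import Pool.Agent.H13.WS.Plc

/-!
Points of degree `r` on the projective line over `ℚ`.
-/

set_option autoImplicit false
set_option linter.unusedSectionVars false

open Finset Module Polynomial

namespace Pool.Agent.H13.WS

open NumberField IsDedekindDomain Height
open Pool.Agent.R405 (exv dot Good exists_good)
open Pool.Agent.W180.OP (Pl av wt nrm le_nrm nrm_pos nrm_nonneg nrm_le exists_nrm wt_nonneg fv)
open Pool.Agent.Y734.BR (Ab int_mem ab_nonempty)
open Pool.Agent.H990R4.VJ (mm one_le_mm coeff_le)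

section res

variable {G : ℤ[X]} {q : ℕ} {M : IntermediateField ℚ ℂ} (hM : ∀ α ∈ rts G, α ∈ M)

theorem dot_inl (f : ℤ[X]) (r : ℕ) (hf : f.natDegree ≤ r) (α : {α : ℂ // α ∈ rts G}) :
    ((dot (ev (q := q) hM r (Sum.inl α)) (exv M (cf f r)) : M) : ℂ) =
      (f.map (Int.castRingHom ℂ)).eval α.1 := by
  rw [eval_eq_sum_range' (n := r + 1) (Nat.lt_succ_of_le (natDegree_map_le.trans hf)),
    Finset.sum_range]
  unfold dot
  have h1 : ((∑ j, ev (q := q) hM r (Sum.inl α) j * exv M (cf f r) j : M) : ℂ) =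
      ∑ j, ((ev (q := q) hM r (Sum.inl α) j * exv M (cf f r) j : M) : ℂ) :=
    map_sum (algebraMap M ℂ) _ _
  rw [h1]
  refine Finset.sum_congr rfl fun j _ => ?_
  have h2 : ((ev (q := q) hM r (Sum.inl α) j * exv M (cf f r) j : M) : ℂ) =
      (((ev (q := q) hM r (Sum.inl α) j : M)) : ℂ) * ((exv M (cf f r) j : M) : ℂ) := rfl
  rw [h2]
  have h3 : ((exv M (cf f r) j : M) : ℂ) = (f.coeff j.val : ℂ) := by
    show algebraMap M ℂ (algebraMap ℚ M (f.coeff j.val : ℚ)) = _
    rw [← IsScalarTower.algebraMap_apply ℚ M ℂ]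
    simp
  have h4 : ((ev (q := q) hM r (Sum.inl α) j : M) : ℂ) = α.1 ^ j.val := by
    simp [ev, pv, pw]
  rw [h3, h4, coeff_map]
  simp [mul_comm]

theorem dot_inr (f : ℤ[X]) (r : ℕ) (i : Fin (q - G.natDegree)) :
    ((dot (ev (q := q) hM r (Sum.inr i)) (exv M (cf f r)) : M) : ℂ) = (f.coeff r : ℂ) := by
  unfold dot
  rw [Finset.sum_eq_single (Fin.last r)]
  · have h3 : ((exv M (cf f r) (Fin.last r) : M) : ℂ) = (f.coeff r : ℂ) := by
      show algebraMap M ℂ (algebraMap ℚ M (f.coeff r : ℚ)) = _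
      rw [← IsScalarTower.algebraMap_apply ℚ M ℂ]
      simp
    have h4 : ev (q := q) hM r (Sum.inr i) (Fin.last r) = 1 := by
      simp [ev, pv, pw]
    rw [h4, one_mul, h3]
  · intro j _ hj
    have h1 : r - j.val ≠ 0 := by
      have h2 : j.val ≠ r := fun h => hj (Fin.ext (by simpa using h))
      have := j.2
      omega
    have h4 : ev (q := q) hM r (Sum.inr i) j = 0 := by
      simp [ev, pv, pw, h1]
    rw [h4, zero_mul]
  · intro h
    exact absurd (Finset.mem_univ _) h

/-- the resultant is the product of the evaluation forms -/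
theorem res_prod (hsep : Squarefree (G.map (Int.castRingHom ℚ)))
    (hGq : G.natDegree ≤ q) (f : ℤ[X]) (r : ℕ) (hf : f.natDegree ≤ r) :
    ((resultant f G r q : ℤ) : M) = ((-1) ^ (r * G.natDegree) * (G.leadingCoeff : M) ^ r) *
      ∏ i : Ix G q, dot (ev hM r i) (exv M (cf f r)) := by
  have hinj : Function.Injective (algebraMap M ℂ) := (algebraMap M ℂ).injective
  apply hinj
  rw [map_mul, map_mul, map_pow, map_pow, map_prod, map_intCast, map_intCast, map_neg, map_one]
  set n := G.natDegree with hn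
  have hnodup : (G.map (Int.castRingHom ℂ)).roots.Nodup := nodup_roots (sepC hsep)
  rw [Fintype.prod_sum_type]
  have h1 : ∏ α : {α : ℂ // α ∈ rts G}, algebraMap M ℂ (dot (ev (q := q) hM r (Sum.inl α))
      (exv M (cf f r))) = ((G.map (Int.castRingHom ℂ)).roots.map
        (f.map (Int.castRingHom ℂ)).eval).prod := by
    have h2 : ∀ α : {α : ℂ // α ∈ rts G}, algebraMap M ℂ (dot (ev (q := q) hM r (Sum.inl α))
      (exv M (cf f r))) = (f.map (Int.castRingHom ℂ)).eval α.1 := fun α => dot_inl hM f r hf α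
    rw [Finset.prod_congr rfl fun α _ => h2 α,
      Finset.prod_coe_sort (rts G) (fun z => (f.map (Int.castRingHom ℂ)).eval z)]
    rw [Finset.prod_eq_multiset_prod, rts, Multiset.toFinset_val,
      Multiset.dedup_eq_self.2 hnodup]
  have h2 : ∏ i : Fin (q - n), algebraMap M ℂ (dot (ev (q := q) hM r (Sum.inr i))
      (exv M (cf f r))) = (f.coeff r : ℂ) ^ (q - n) := by
    have h3 : ∀ i : Fin (q - n), algebraMap M ℂ (dot (ev (q := q) hM r (Sum.inr i))
      (exv M (cf f r))) = (f.coeff r : ℂ) := fun i => dot_inr hM f r i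
    rw [Finset.prod_congr rfl fun i _ => h3 i, Finset.prod_const, Finset.card_univ,
      Fintype.card_fin]
  rw [h1, h2]
  have h3 := resultant_eq_prod_eval (G.map (Int.castRingHom ℂ)) (f.map (Int.castRingHom ℂ)) r
    (natDegree_map_le.trans hf) (IsAlgClosed.splits _)
  rw [resultant_map_map, natDegree_map_eq_of_injective (RingHom.injective_int _),
    leadingCoeff_map_of_injective (RingHom.injective_int _)] at h3
  have h4 : resultant f G r n = (-1) ^ (r * n) * resultant G f n r := resultant_comm f G r n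
  have h5 : resultant f G r q = f.coeff r ^ (q - n) * resultant f G r n := by
    have := resultant_add_right_deg f G r n (q - n) le_rfl
    rwa [Nat.add_sub_cancel' hGq] at this
  have h6 : ((resultant G f n r : ℤ) : ℂ) = (G.leadingCoeff : ℂ) ^ r *
      ((G.map (Int.castRingHom ℂ)).roots.map (f.map (Int.castRingHom ℂ)).eval).prod := by
    simpa using h3
  rw [h5, h4]
  push_cast
  rw [h6]
  ring

end res

theorem exists_M (G : ℤ[X]) (hG : G ≠ 0) : ∃ M : IntermediateField ℚ ℂ, FiniteDimensional ℚ M ∧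
    IsGalois ℚ M ∧ (∃ z : M, z ^ 2 = -1) ∧ ∀ α ∈ rts G, α ∈ M := by
  classical
  obtain ⟨M, hfd, hnorm, hM⟩ := Pool.Agent.TH286.GT.GrowD.exists_field
    (insert Complex.I (rts G)) (by
      intro x hx
      rcases Finset.mem_insert.1 hx with rfl | hx
      · refine ⟨Polynomial.X ^ 2 + 1, ?_, by simp⟩
        intro h
        have := congrArg (Polynomial.eval 1) h
        norm_num at this
      · rw [mem_rts hG] at hx
        refine ⟨G.map (Int.castRingHom ℚ), ?_, ?_⟩
        · rw [Ne, Polynomial.map_eq_zero_iff (RingHom.injective_int _)]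
          exact hG
        · have := aeval_map_algebraMap ℚ x G
          rw [hx] at this
          exact this)
  refine ⟨M, hfd, ⟨⟩, ⟨⟨Complex.I, hM _ (Finset.mem_insert_self _ _)⟩, ?_⟩,
    fun α hα => hM _ (Finset.mem_insert_of_mem hα)⟩
  apply Subtype.ext
  show Complex.I ^ 2 = -1
  exact Complex.I_sq

/-- the estimate for the resultant, in degree exactly `r` -/
theorem exact_deg (r q : ℕ) (G H : ℤ[X]) (hG : G ≠ 0)
    (hsep : Squarefree (G.map (Int.castRingHom ℚ))) (hGq : G.natDegree ≤ q)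
    (hqG : q ≤ G.natDegree + 1) (hq : 1 ≤ q) (hHG : H ∣ G)
    (hgen : ∀ B : Finset ℂ, (∀ b ∈ B, aeval b G = 0) → B.card ≤ r → ∀ α : ℂ, α ∉ B →
      aeval α H = 0 →
      r < B.card + (minpoly (IntermediateField.adjoin ℚ (B : Set ℂ)) α).natDegree)
    (S : Finset ℕ) (hS : ∀ p ∈ S, p.Prime) (ε : ℝ) (hε : 0 < ε) :
    ∃ C : ℝ, 0 ≤ C ∧ ∀ f : ℤ[X], f.IsPrimitive → f.natDegree = r → resultant f G r q ≠ 0 →
      q * Real.log (mm f) - Real.log |((resultant f G r q : ℤ) : ℝ)| +
        ∑ p ∈ S, (padicValInt p (resultant f G r q) : ℝ) * Real.log p ≤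
      (((max (r + 1) (q - H.natDegree) : ℕ) : ℝ) + ε) * Real.log (mm f) + C := by
  classical
  obtain ⟨M, hfd, hgal, hi, hM⟩ := exists_M G hG
  have : NumberField M := ⟨⟩
  have hH : H ≠ 0 := fun h => hG (by rw [h] at hHG; exact zero_dvd_iff.1 hHG)
  -- the places
  have hvp : ∀ p : ℕ, ∃ v : HeightOneSpectrum (𝓞 ℚ), p.Prime → v ∈ Ab ℚ p := by
    intro p
    by_cases hp : p.Prime
    · obtain ⟨v, hv⟩ := ab_nonempty (L := ℚ) hp
      exact ⟨v, fun _ => hv⟩
    · obtain ⟨v, -⟩ := ab_nonempty (L := ℚ) Nat.prime_two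
      exact ⟨v, fun h => absurd h hp⟩
  choose vp hvp using hvp
  set S' : Finset (Pl ℚ) := insert (Sum.inl Rat.infinitePlace) (S.image fun p => Sum.inr (vp p))
    with hS'
  choose fa hfa using fun v : Pl ℚ => exists_good (K := M) v
  -- the subfamily
  set Rs : Finset (Ix G q) := univ.filter fun i => Sum.elim (fun α => aeval (α.1 : ℂ) H ≠ 0)
    (fun _ => True) i with hRs
  have hRsinl : ∀ α, Sum.inl α ∈ Rs ↔ aeval (α.1 : ℂ) H ≠ 0 := by
    intro α
    simp [hRs]
  have hRsinr : ∀ i, Sum.inr i ∈ Rs := by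
    intro i
    simp [hRs]
  have hne : Nonempty (Ix G q) := by
    rcases Nat.eq_zero_or_pos G.natDegree with h | h
    · exact ⟨Sum.inr ⟨0, by omega⟩⟩
    · have : 0 < (rts G).card := by rw [card_rts (sepC hsep)]; exact h
      obtain ⟨α, hα⟩ := Finset.card_pos.1 this
      exact ⟨Sum.inl ⟨α, hα⟩⟩
  have hHroot : ∀ (σ : M ≃ₐ[ℚ] M) (α : ℂ) (hα : α ∈ rts G),
      aeval α H = 0 ↔ aeval ((σ ⟨α, hM α hα⟩ : M) : ℂ) H = 0 := by
    intro σ α hα
    have e1 := Polynomial.aeval_algebraMap_apply ℂ (⟨α, hM α hα⟩ : M) H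
    have e2 := Polynomial.aeval_algebraMap_apply ℂ (σ (⟨α, hM α hα⟩ : M)) H
    have e3 := Polynomial.aeval_algHom_apply (σ.toAlgHom.restrictScalars ℤ)
      (⟨α, hM α hα⟩ : M) H
    have e3' : aeval (σ ⟨α, hM α hα⟩) H = σ (aeval (⟨α, hM α hα⟩ : M) H) := e3
    have e1' : aeval α H = algebraMap M ℂ (aeval (⟨α, hM α hα⟩ : M) H) := e1
    have e2' : aeval ((σ ⟨α, hM α hα⟩ : M) : ℂ) H = algebraMap M ℂ (aeval (σ ⟨α, hM α hα⟩) H) := e2
    rw [e1', e2', e3']
    constructor
    · intro h
      have h1 := (map_eq_zero (algebraMap M ℂ)).1 h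
      rw [h1, map_zero, map_zero]
    · intro h
      have h1 := (map_eq_zero (algebraMap M ℂ)).1 h
      have h2 := (map_eq_zero_iff σ σ.injective).1 h1
      rw [h2, map_zero]
  -- the main estimate
  obtain ⟨C, hC, hmain⟩ := generic (k := ℚ) (K := M) hi (n0 := r + 1) (ev (q := q) hM r)
    (fun B hB => ev_gp hM hqG r B hB) (pm hM hG)
    (fun σ i => ⟨1, one_ne_zero, by rw [one_smul]; exact ev_pm hM hG r σ i⟩) Rs
    (fun σ i => by
      rcases i with α | i
      · rw [hRsinl]
        have : pm hM hG σ (Sum.inl α : Ix G q) = Sum.inl ⟨_, act_root hM hG σ α.2⟩ := rfl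
        rw [this, hRsinl, Ne, Ne, not_iff_not]
        exact hHroot σ α.1 α.2
      · have : pm hM hG σ (Sum.inr i : Ix G q) = Sum.inr i := rfl
        rw [this])
    (fun i hi B hB hiB => by
      rcases i with α | i
      · rw [hRsinl, not_not] at hi
        set Bc : Finset ℂ := (univ.filter fun β : {α : ℂ // α ∈ rts G} => Sum.inl β ∈ B).image
          fun β => β.1 with hBc
        have h1 := orbit_card hM hG B α Bc hBc
        have hBcard : Bc.card ≤ B.card := by
          refine (Finset.card_image_le).trans ?_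
          refine Finset.card_le_card_of_injOn (fun β => Sum.inl β)
            (fun β hβ => (Finset.mem_filter.1 hβ).2) (fun a _ b _ h => Sum.inl.inj h)
        have h2 := hgen Bc (fun b hb => by
          obtain ⟨β, -, rfl⟩ := Finset.mem_image.1 hb
          exact (mem_rts hG).1 β.2) (by omega) α.1 (fun h => by
          obtain ⟨β, hβ, hβα⟩ := Finset.mem_image.1 h
          apply hiB
          have : β = α := Subtype.ext hβα
          rw [← this]
          exact (Finset.mem_filter.1 hβ).2) hi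
        omega
      · exact absurd (hRsinr i) hi) S' fa (fun v _ => hfa v) ε hε
  -- the size of the subfamily
  have hRsc : Rs.card ≤ q - H.natDegree := by
    have h1 : Rs ⊆ ((univ.filter fun α : {α : ℂ // α ∈ rts G} => aeval (α.1 : ℂ) H ≠ 0).map
        ⟨Sum.inl, Sum.inl_injective⟩) ∪ (univ.map ⟨Sum.inr, Sum.inr_injective⟩) := by
      intro i hi
      rcases i with α | i
      · refine Finset.mem_union_left _ (Finset.mem_map.2 ⟨α, Finset.mem_filter.2
          ⟨Finset.mem_univ _, (hRsinl α).1 hi⟩, rfl⟩)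
      · exact Finset.mem_union_right _ (Finset.mem_map.2 ⟨i, Finset.mem_univ _, rfl⟩)
    have h2 := (Finset.card_le_card h1).trans (Finset.card_union_le _ _)
    rw [Finset.card_map, Finset.card_map, Finset.card_univ, Fintype.card_fin] at h2
    have hsepH : (H.map (Int.castRingHom ℂ)).Separable :=
      (sepC hsep).of_dvd (Polynomial.map_dvd _ hHG)
    have h3 : (univ.filter fun α : {α : ℂ // α ∈ rts G} => aeval (α.1 : ℂ) H ≠ 0).card +
        (rts H).card = (rts G).card := by
      have h4 : (univ.filter fun α : {α : ℂ // α ∈ rts G} => ¬ aeval (α.1 : ℂ) H ≠ 0).card =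
          (rts H).card := by
        refine Finset.card_bij (fun α _ => α.1) (fun α hα => ?_) (fun a _ b _ h => Subtype.ext h)
          (fun β hβ => ?_)
        · rw [mem_rts hH]
          exact not_not.1 (Finset.mem_filter.1 hα).2
        · have h5 : aeval β G = 0 := by
            obtain ⟨H', rfl⟩ := hHG
            rw [map_mul, (mem_rts hH).1 hβ, zero_mul]
          exact ⟨⟨β, (mem_rts hG).2 h5⟩, Finset.mem_filter.2 ⟨Finset.mem_univ _,
            not_not.2 ((mem_rts hH).1 hβ)⟩, rfl⟩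
      rw [← h4, Finset.card_filter_add_card_filter_not, Finset.card_univ, Fintype.card_coe]
    rw [card_rts (sepC hsep), card_rts hsepH] at h3
    omega
  -- conversion
  set lc : ℤ := G.leadingCoeff with hlc
  have hlc0 : lc ≠ 0 := leadingCoeff_ne_zero.2 hG
  set cc : ℝ := ((max (r + 1) (q - H.natDegree) : ℕ) : ℝ) + ε with hcc
  have hcc0 : 0 ≤ cc := by positivity
  set D : ℝ := q * Real.log (r + 1) + abs ((r : ℝ) * Real.log (abs (lc : ℝ))) +
    ∑ p ∈ S, (r : ℝ) * ((padicValInt p lc : ℝ) * Real.log p) with hD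
  have hlog0 : ∀ p ∈ S, 0 ≤ Real.log (p : ℝ) := fun p hp =>
    Real.log_nonneg (by exact_mod_cast (hS p hp).one_le)
  have hD0 : 0 ≤ D := by
    have h1 : 0 ≤ Real.log ((r : ℝ) + 1) := Real.log_nonneg (by
      have : (0 : ℝ) ≤ r := Nat.cast_nonneg _
      linarith)
    have h2 : 0 ≤ ∑ p ∈ S, (r : ℝ) * ((padicValInt p lc : ℝ) * Real.log p) :=
      Finset.sum_nonneg fun p hp => mul_nonneg (Nat.cast_nonneg _)
        (mul_nonneg (Nat.cast_nonneg _) (hlog0 p hp))
    positivity
  refine ⟨C + cc * (r * Real.log 2) + D, by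
    have : 0 ≤ Real.log (2 : ℝ) := Real.log_nonneg (by norm_num)
    positivity, fun f hprim hdeg hres => ?_⟩
  set x := cf f r with hx
  have hf0 : f ≠ 0 := by
    intro h
    have h1 := hprim.content_eq_one
    rw [h, content_zero] at h1
    exact zero_ne_one h1
  have hx0 : x ≠ 0 := by
    intro h
    have h1 := congrFun h (Fin.last r)
    simp only [hx, cf, Fin.val_last, Pi.zero_apply] at h1
    have h2 : f.coeff r = 0 := by exact_mod_cast h1
    rw [← hdeg] at h2
    exact leadingCoeff_ne_zero.2 hf0 h2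
  have hprod := res_prod (M := M) hM hsep hGq f r hdeg.le
  have hresM : ((resultant f G r q : ℤ) : M) ≠ 0 := by exact_mod_cast hres
  have hdot0 : ∀ i, dot (ev (q := q) hM r i) (exv M x) ≠ 0 := by
    intro i h0
    apply hresM
    rw [hprod, Finset.prod_eq_zero (Finset.mem_univ i) h0, mul_zero]
  have h1 := hmain x hdot0
  -- one place
  have hplace : ∀ v : Pl ℚ, ∑ i : Ix G q, (Real.log (nrm (av v) x) -
      Real.log (fa v (dot (ev hM r i) (exv M x)))) = q * Real.log (nrm (av v) x) -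
      Real.log (av v ((resultant f G r q : ℤ) : ℚ)) + r * Real.log (av v (lc : ℚ)) := by
    intro v
    have e1 : fa v ((resultant f G r q : ℤ) : M) = av v ((resultant f G r q : ℤ) : ℚ) := by
      have := (hfa v).ext ((resultant f G r q : ℤ) : ℚ)
      rwa [map_intCast] at this
    have e2 : fa v ((lc : ℤ) : M) = av v ((lc : ℤ) : ℚ) := by
      have := (hfa v).ext ((lc : ℤ) : ℚ)
      rwa [map_intCast] at this
    have e3 : fa v ((resultant f G r q : ℤ) : M) = fa v (lc : M) ^ r *
        ∏ i : Ix G q, fa v (dot (ev hM r i) (exv M x)) := by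
      rw [hprod, map_mul, map_mul, map_pow, map_pow, map_prod, AbsoluteValue.map_neg, map_one,
        one_pow, one_mul]
    have hlcM : (lc : M) ≠ 0 := by exact_mod_cast hlc0
    have hl1 : 0 < fa v (lc : M) := (fa v).pos_iff.2 hlcM
    have hl2 : ∀ i, 0 < fa v (dot (ev (q := q) hM r i) (exv M x)) :=
      fun i => (fa v).pos_iff.2 (hdot0 i)
    have e4 : Real.log (av v ((resultant f G r q : ℤ) : ℚ)) = r * Real.log (av v (lc : ℚ)) +
        ∑ i : Ix G q, Real.log (fa v (dot (ev hM r i) (exv M x))) := by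
      rw [← e1, e3, Real.log_mul (pow_pos hl1 _).ne' (Finset.prod_pos fun i _ => hl2 i).ne',
        Real.log_pow, Real.log_prod fun i _ => (hl2 i).ne', e2]
    have e5 : (Fintype.card (Ix G q) : ℝ) = q := by
      rw [Fintype.card_sum, Fintype.card_coe, Fintype.card_fin, card_rts (sepC hsep)]
      exact_mod_cast Nat.add_sub_cancel' hGq
    rw [Finset.sum_sub_distrib, Finset.sum_const, Finset.card_univ, nsmul_eq_mul, e5, e4]
    ring
  have hSnot : (Sum.inl Rat.infinitePlace : Pl ℚ) ∉ S.image fun p => (Sum.inr (vp p) : Pl ℚ) := by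
    intro h
    obtain ⟨p, -, h⟩ := Finset.mem_image.1 h
    exact Sum.inr_ne_inl h
  have hvinj : ∀ p ∈ S, ∀ p' ∈ S, (Sum.inr (vp p) : Pl ℚ) = Sum.inr (vp p') → p = p' := by
    intro p hp p' hp' h
    have h2 := Sum.inr.inj h
    have h3 := hvp p (hS p hp)
    rw [h2] at h3
    exact Pool.Agent.Y734.BR.ab_disj (hS p hp) (hS p' hp') h3 (hvp p' (hS p' hp'))
  rw [hS', Finset.sum_insert hSnot, Finset.sum_image (fun p hp p' hp' h => hvinj p hp p' hp' h)] at h1
  simp only [hplace] at h1
  rw [wt_inf, one_mul, av_inf, av_inf] at h1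
  have hwp : ∀ p ∈ S, wt (Sum.inr (vp p) : Pl ℚ) * (q * Real.log (nrm (av (Sum.inr (vp p))) x) -
      Real.log (av (Sum.inr (vp p)) ((resultant f G r q : ℤ) : ℚ)) +
      r * Real.log (av (Sum.inr (vp p)) (lc : ℚ))) =
      (padicValInt p (resultant f G r q) : ℝ) * Real.log p -
        r * ((padicValInt p lc : ℝ) * Real.log p) := by
    intro p hp
    have e0 : wt (Sum.inr (vp p) : Pl ℚ) = 1 := rfl
    have e1 : Real.log (av (Sum.inr (vp p)) ((resultant f G r q : ℤ) : ℚ)) =
        - ((padicValInt p (resultant f G r q) : ℝ) * Real.log p) :=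
      fv_int (hS p hp) (hvp p (hS p hp)) _ hres
    have e2 : Real.log (av (Sum.inr (vp p)) ((lc : ℤ) : ℚ)) =
        - ((padicValInt p lc : ℝ) * Real.log p) :=
      fv_int (hS p hp) (hvp p (hS p hp)) _ hlc0
    have e3 : nrm (av (Sum.inr (vp p) : Pl ℚ)) x = 1 := by
      apply le_antisymm
      · exact nrm_le zero_le_one fun j => fv_le_one _ _
      · obtain ⟨i, hi⟩ := Pool.Agent.H990R4.VJ.Red.prim_at f r hdeg.le hprim p (hS p hp)
        have h4 : (f.coeff i : 𝓞 ℚ) ∉ (vp p).asIdeal :=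
          fun h => hi ((int_mem (hS p hp) (hvp p (hS p hp)) _).1 h)
        have h5 : fv (vp p) ((f.coeff i : ℤ) : ℚ) = 1 := Pool.Agent.Y734.BR.mk_eq_one.2 h4
        rw [← h5]
        exact le_nrm (av (Sum.inr (vp p) : Pl ℚ)) x i
    rw [e0, e1, e2, e3, Real.log_one]
    ring
  rw [Finset.sum_congr rfl hwp, Finset.sum_sub_distrib] at h1
  -- heights
  have hmm1 : 1 ≤ mm f := one_le_mm hf0
  have hmmpos : 0 < mm f := by linarith
  have hnrmpos := nrm_pos (av (Sum.inl Rat.infinitePlace : Pl ℚ)) hx0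
  have hH1 : Real.log (nrm (av (Sum.inl Rat.infinitePlace : Pl ℚ)) x) ≤
      r * Real.log 2 + Real.log (mm f) := by
    rw [← Real.log_pow, ← Real.log_mul (by positivity) hmmpos.ne']
    refine Real.log_le_log hnrmpos (nrm_le (by positivity) fun j => ?_)
    rw [av_inf]
    have := coeff_le f j.val
    rw [hdeg] at this
    simpa [hx, cf] using this
  have hH2 : Real.log (mm f) ≤ Real.log (r + 1) +
      Real.log (nrm (av (Sum.inl Rat.infinitePlace : Pl ℚ)) x) := by
    rw [← Real.log_mul (by positivity) hnrmpos.ne']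
    refine Real.log_le_log hmmpos ?_
    have e1 := mahlerMeasure_le_sum_norm_coeff (f.map (Int.castRingHom ℂ))
    rw [sum_over_range' _ (by simp) (r + 1) (by
      rw [natDegree_map_eq_of_injective (RingHom.injective_int _)]; omega)] at e1
    refine e1.trans ?_
    have e2 : ∑ a ∈ range (r + 1), ‖(f.map (Int.castRingHom ℂ)).coeff a‖ ≤
        ∑ _a ∈ range (r + 1), nrm (av (Sum.inl Rat.infinitePlace : Pl ℚ)) x := by
      refine Finset.sum_le_sum fun a ha => ?_
      rw [coeff_map]
      have e3 := le_nrm (av (Sum.inl Rat.infinitePlace : Pl ℚ)) x ⟨a, Finset.mem_range.1 ha⟩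
      rw [av_inf] at e3
      simpa [hx, cf] using e3
    rw [Finset.sum_const, Finset.card_range, nsmul_eq_mul] at e2
    push_cast at e2
    exact e2
  have hH3 := (logHeight_cf f r hx0).trans hH1
  have hmax : (((max (r + 1) Rs.card : ℕ) : ℝ) + ε) ≤ cc := by
    rw [hcc]
    have : max (r + 1) Rs.card ≤ max (r + 1) (q - H.natDegree) := max_le_max le_rfl hRsc
    have : ((max (r + 1) Rs.card : ℕ) : ℝ) ≤ ((max (r + 1) (q - H.natDegree) : ℕ) : ℝ) := by
      exact_mod_cast this
    linarith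
  have hlh := logHeight_nonneg x
  have h2 : (((max (r + 1) Rs.card : ℕ) : ℝ) + ε) * logHeight x ≤
      cc * (r * Real.log 2 + Real.log (mm f)) :=
    mul_le_mul hmax hH3 hlh hcc0
  have h3 : (q : ℝ) * Real.log (mm f) ≤ q * (Real.log (r + 1) +
      Real.log (nrm (av (Sum.inl Rat.infinitePlace : Pl ℚ)) x)) :=
    mul_le_mul_of_nonneg_left hH2 (Nat.cast_nonneg _)
  have h4 := neg_abs_le ((r : ℝ) * Real.log (abs (lc : ℝ)))
  simp only [Rat.cast_intCast] at h1
  rw [← Finset.mul_sum] at h1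
  have h5 : ∑ p ∈ S, (r : ℝ) * ((padicValInt p lc : ℝ) * Real.log p) =
    r * ∑ p ∈ S, ((padicValInt p lc : ℝ) * Real.log p) := by rw [Finset.mul_sum]
  rw [h5] at hD
  linarith

end Pool.Agent.H13.WS
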